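import Pool.Agent.Q60.PB.Main

/-!
# The polynomial bound in all dimensions
-/

set_option linter.unusedSectionVars false

namespace Pool.Agent.Q60.PB

open Module Matrix Pool.Agent.Q60.ED Pool.Agent.Q60.NP Pool.Agent.Q60.TD Pool.Agent.Q60.FI

variable {ι : Type} [Fintype ι] [DecidableEq ι]

/-- In dimension at most one everything is generated by the tensors of degree one. -/
lemma small_bound (V : PHS ι) (S : ∀ n : ℕ, Submodule ℚ ((Fin n → ι) → ℚ))
    (hone : (fun _ => 1) ∈ S 0) (hmul : ∀ {m n : ℕ} {s : (Fin m → ι) → ℚ} {t : (Fin n → ι) → ℚ},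
      s ∈ S m → t ∈ S n → ED.tmul s t ∈ S (m + n)) (hb : Fintype.card ι ≤ 1)
    (h : ∀ n ≤ Fintype.card ι ^ 3, V.T n ≤ S n) (n : ℕ) : V.T n ≤ S n := by
  have hsub : Subsingleton ι := Fintype.card_le_one_iff_subsingleton.1 hb
  rcases isEmpty_or_nonempty ι with hem | ⟨⟨a⟩⟩
  · intro t ht
    cases n with
    | zero => exact h 0 (Nat.zero_le _) ht
    | succ n =>
      have h0 : t = 0 := by
        funext I
        exact hem.elim (I 0)
      rw [h0]
      exact Submodule.zero_mem _
  · have hne : Nonempty ι := ⟨a⟩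
    have hu : ∀ b : ι, b = a := fun b => Subsingleton.elim b a
    have hc1 : Fintype.card ι = 1 := le_antisymm hb Fintype.card_pos
    have hsum : ∀ {M : Type} [AddCommMonoid M] (F : ι → M), ∑ i, F i = F a := by
      intro M _ F
      rw [Finset.sum_eq_single a]
      · intro b _ hb
        exact absurd (hu b) hb
      · intro hh
        exact absurd (Finset.mem_univ _) hh
    have hQ : V.Q a a ≠ 0 := by
      intro h0
      apply PHS.det_Q (V := V)
      have h1 : V.Q = 0 := by
        ext i j
        rw [hu i, hu j, h0]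
        rfl
      rw [h1]
      exact Matrix.det_zero
    have hs : ∀ z : ℂ, z ≠ 0 → V.c z a a = 1 := by
      intro z hz
      obtain ⟨w, rfl⟩ := IsAlgClosed.exists_eq_mul_self z
      have hw : w ≠ 0 := fun h0 => hz (by rw [h0, zero_mul])
      have h1 := congrFun (congrFun (V.mul w w hw hw) a) a
      have h2 := congrFun (congrFun (V.inv w hw) a) a
      rw [Matrix.mul_apply, hsum] at h1
      rw [Matrix.mul_apply, hsum, Matrix.mul_apply, hsum, Matrix.transpose_apply] at h2
      have hq : qc V.Q a a ≠ 0 := by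
        rw [qc, Matrix.map_apply]
        exact_mod_cast hQ
      change coch V.d V.E (w * w) a a = 1
      rw [h1]
      have h3 : qc V.Q a a * (coch V.d V.E w a a * coch V.d V.E w a a) = qc V.Q a a * 1 := by
        rw [mul_one]
        conv_rhs => rw [← h2]
        ring
      exact mul_left_cancel₀ hq h3
    have h1 : (fun _ => 1 : (Fin 1 → ι) → ℚ) ∈ V.T 1 := by
      intro z hz
      funext I
      rw [tpow_apply]
      have hI : ∀ J : Fin 1 → ι, J = I := fun J => funext fun k => Subsingleton.elim _ _
      rw [Finset.sum_eq_single I]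
      · rw [Fin.prod_univ_one, hu (I 0)]
        have h3 := hs z hz
        rw [h3, one_mul]
      · intro J _ hJ
        exact absurd (hI J) hJ
      · intro hh
        exact absurd (Finset.mem_univ _) hh
    have h2 : (fun _ => 1 : (Fin 1 → ι) → ℚ) ∈ S 1 := h 1 (by rw [hc1]; norm_num) h1
    have h3 : ∀ m : ℕ, (fun _ => 1 : (Fin m → ι) → ℚ) ∈ S m := by
      intro m
      induction m with
      | zero => exact hone
      | succ m ih =>
        have h4 := hmul ih h2
        have h5 : ED.tmul (fun _ => 1 : (Fin m → ι) → ℚ) (fun _ => 1 : (Fin 1 → ι) → ℚ) =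
            fun _ => 1 := by
          funext J
          simp [ED.tmul]
        rw [h5] at h4
        exact h4
    intro t _
    have h4 : t = t (fun _ => a) • (fun _ => 1 : (Fin n → ι) → ℚ) := by
      funext I
      have hI : I = fun _ => a := funext fun k => hu _
      rw [hI]
      simp
    rw [h4]
    exact Submodule.smul_mem _ _ (h3 n)

/-- **A closed system of Hodge tensors which contains the tensors of degree at most `b ^ 3`.** -/
theorem poly_bound' (V : PHS ι) (C C' : PSys V.Q) (hC : ∀ n, C.S n ≤ V.T n)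
    (hC' : ∀ n, C'.S n = V.T n)
    (h : ∀ n ≤ Fintype.card ι ^ 3, V.T n ≤ C.S n)
    (hcen : ∀ c : Matrix ι ι ℚ, tv V.Q c ∈ V.T 2 → (∀ a, tv V.Q a ∈ V.T 2 → a * c = c * a) →
      (∀ s ∈ V.T 2, aop c s = 0) → c = 0) (n : ℕ) : V.T n ≤ C.S n := by
  rcases Nat.lt_or_ge (Fintype.card ι) 2 with hb | hb
  · exact small_bound V C.S C.one C.mul (by omega) h n
  · exact poly_bound V C C' hC hC' hb h hcen n

end Pool.Agent.Q60.PB
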