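import Pool.Agent.Q60.PB.Geo
import Pool.Agent.Q60.HDS.Abs
import Pool.Agent.Q60.FI.AbsL

/-!
# The Hodge conjecture for all powers is decided by one power: both bounds
-/

open CategoryTheory AlgebraicGeometry TensorProduct

universe u

namespace Pool.Agent.Q60.PB

open Module
open Pool.Agent.H914 Pool.Agent.H914.VarClass Pool.Agent.H914.VarClass.Obj
  Pool.Agent.H914.WeilCohomology
open Pool.Agent.Y121 Pool.Agent.Y121.AHS Pool.Agent.Y133.Half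
open Pool.Agent.Q60.HDS Pool.Agent.Q60.FI

variable {k : Type u} [Field k] {𝒱 : VarClass k} {ops : CycleOps 𝒱}

variable {T : AHS.HodgeTheory ops} {X : 𝒱.Obj}

/-- The two bounds. -/
theorem gen_power (hp : Polarisable T X) (S : Sys (toH T).W)
    (hS : ∀ Z, S.C Z ≤ (AH.hodgeSys (toH T)).C Z) {b N : ℕ}
    (hb : finrank T.W.K (T.W.H X) = b)
    (hN : (2 * b) ^ (3 * b ^ 2) ≤ N + 1 ∨ b ^ 3 ≤ N + 1 ∧ TotallyRealCentre T X)
    (h : (AH.hodgeSys (toH T)).C (pw X N) ≤ S.C (pw X N)) (n : ℕ) :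
    (AH.hodgeSys (toH T)).C (pw X n) ≤ S.C (pw X n) := by
  obtain ⟨φ, hφ⟩ := hp.exists_isPol
  rcases hN with hN | ⟨hN, hc⟩
  · refine HD.one_power hp.realH hφ S hS (N := N) ?_ h n
    refine le_trans (le_of_eq ?_) hN
    rw [← hb]
    rfl
  · refine one_power hp.realH hφ S hS hc.noSkew (N := N) ?_ h n
    refine le_trans (le_of_eq ?_) hN
    rw [← hb]
    rfl

theorem gen_half (hp : Polarisable T X) (S : Sys (toH T).W)
    (hS : ∀ Z, S.C Z ≤ (AH.hodgeSys (toH T)).C Z)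
    (hS1 : ∀ Z : 𝒱.Obj, ∀ z : Z.Cycles, Z.IsCyc 1 z → T.W.cl Z z ∈ S.C Z) {b N : ℕ}
    (hb : finrank T.W.K (T.W.H X) = b)
    (hN : (2 * b) ^ (3 * b ^ 2) ≤ N + 1 ∨ b ^ 3 ≤ N + 1 ∧ TotallyRealCentre T X)
    {ε : ℝ} (hε : 0 < ε) {n : ℕ} (hn : (2 * b : ℝ) ^ (3 * N + 6) / ε ^ 2 ≤ n + 1)
    (h : (1 / 2 + ε) * finrank (toH T).W.K ((AH.hodgeSys (toH T)).C (pw X n)) <
      S.a (pw X n)) (m : ℕ) :
    (AH.hodgeSys (toH T)).C (pw X m) ≤ S.C (pw X m) := by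
  obtain ⟨φ, hφ⟩ := hp.exists_isPol
  have hb' : finrank (toH T).W.K ((toH T).W.H X) = b := hb
  rcases Nat.eq_zero_or_pos b with h0 | h0
  · intro c _
    exact le_of_finrank_le_one S (by omega) _ c
  have hb1 : (1 : ℝ) ≤ 2 * (b : ℝ) := by
    have : (1 : ℝ) ≤ (b : ℝ) := by exact_mod_cast h0
    linarith
  rcases hN with hN | ⟨hN, hc⟩
  · refine HD.uniform hp.realH hφ S hS hS1 hε (n := n) ?_ h m
    refine le_trans ?_ hn
    rw [hb']
    exact div_le_div_of_nonneg_right (pow_le_pow_right₀ hb1 (by omega)) (by positivity)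
  · refine uniform hp.realH hφ S hS hS1 hc.noSkew hε (n := n) ?_ h m
    refine le_trans ?_ hn
    rw [hb']
    exact div_le_div_of_nonneg_right (pow_le_pow_right₀ hb1 (by omega)) (by positivity)

/-- **The Hodge conjecture.** -/
theorem hc_main (T : AHS.HodgeTheory ops) (X : 𝒱.Obj) (hp : Polarisable T X) {b N : ℕ}
    (hb : finrank T.W.K (T.W.H X) = b)
    (hN : (2 * b) ^ (3 * b ^ 2) ≤ N + 1 ∨ b ^ 3 ≤ N + 1 ∧ TotallyRealCentre T X) :
    (HCFor T (pw X N) → ∀ n, HCFor T (pw X n)) ∧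
    ∀ ε : ℝ, 0 < ε → ∀ n : ℕ, (2 * b : ℝ) ^ (3 * N + 6) / ε ^ 2 ≤ n + 1 →
      (1 / 2 + ε) * hodgeDim T (pw X n) < cycleRank ops (pw X n) → ∀ m, HCFor T (pw X m) := by
  refine ⟨fun h n => hcFor_iff.2 (gen_power hp (algSys (toH T).W)
    (fun Z => ClassPred.alg_le (Q := AH.hodgePred (toH T))) hb hN (hcFor_iff.1 h) n),
    fun ε hε n hn h m => hcFor_iff.2 (gen_half hp (algSys (toH T).W)
      (fun Z => ClassPred.alg_le (Q := AH.hodgePred (toH T)))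
      (fun Z z hz => Pool.Agent.W536.RR.cl_mem_algSpan hz) hb hN hε hn ?_ m)⟩
  rw [cycleRank_eq, ← numDim_eq_cycRank T.W] at h
  exact h

/-- **Absolutely Hodge classes.** -/
theorem abs_main (T : AHS.HodgeTheory ops) (D : Full.Conjugates T) (X : 𝒱.Obj)
    (hp : Polarisable T X) {b N : ℕ} (hb : finrank T.W.K (T.W.H X) = b)
    (hN : (2 * b) ^ (3 * b ^ 2) ≤ N + 1 ∨ b ^ 3 ≤ N + 1 ∧ TotallyRealCentre T X) :
    ((∀ j c, IsHodge T (pw X N) j c → Full.IsAbsHodge D (pw X N) j c) →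
      ∀ n, ∀ j c, IsHodge T (pw X n) j c → Full.IsAbsHodge D (pw X n) j c) ∧
    ∀ ε : ℝ, 0 < ε → ∀ n : ℕ, (2 * b : ℝ) ^ (3 * N + 6) / ε ^ 2 ≤ n + 1 →
      (1 / 2 + ε) * hodgeDim T (pw X n) < Full.absDim D (pw X n) →
      ∀ m, ∀ j c, IsHodge T (pw X m) j c → Full.IsAbsHodge D (pw X m) j c := by
  refine ⟨fun h n => abs_le_iff'.1 (gen_power hp (AH.absSys (T := toH T) (Full.toD D))
    (fun Z => AH.abs_le_hodge (Full.toD D) Z) hb hN (abs_le_iff'.2 h) n),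
    fun ε hε n hn h m => abs_le_iff'.1 (gen_half hp (AH.absSys (T := toH T) (Full.toD D))
    (fun Z => AH.abs_le_hodge (Full.toD D) Z)
    (fun Z z hz => ClassPred.alg_le (Q := AH.absPred (T := toH T) (Full.toD D))
      (Pool.Agent.W536.RR.cl_mem_algSpan hz)) hb hN hε hn ?_ m)⟩
  rw [← Full.absDim_eq, AH.absDim_eq_a] at h
  exact h

section powers

variable {b N : ℕ}

lemma bound_sub (hN : N = (2 * b) ^ (3 * b ^ 2) ∨ N = b ^ 3 ∧ TotallyRealCentre T X) :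
    (2 * b) ^ (3 * b ^ 2) ≤ N - 1 + 1 ∨ b ^ 3 ≤ N - 1 + 1 ∧ TotallyRealCentre T X := by
  rcases hN with hN | ⟨hN, hc⟩
  · exact Or.inl (by omega)
  · exact Or.inr ⟨by omega, hc⟩

lemma bound_half {ε : ℝ} {n : ℕ} (h : (2 * b : ℝ) ^ (3 * N + 3) / ε ^ 2 ≤ n)
    (hN : N = (2 * b) ^ (3 * b ^ 2) ∨ N = b ^ 3 ∧ TotallyRealCentre T X) :
    (2 * b : ℝ) ^ (3 * (N - 1) + 6) / ε ^ 2 ≤ ((n - 1 : ℕ) : ℝ) + 1 := by
  have hn1 : (n : ℝ) ≤ ((n - 1 : ℕ) : ℝ) + 1 := by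
    exact_mod_cast (by omega : n ≤ n - 1 + 1)
  refine le_trans ?_ (h.trans hn1)
  rcases Nat.eq_zero_or_pos N with h0 | h0
  · have hb : b = 0 := by
      rcases hN with hN | ⟨hN, -⟩
      · have := bound_pos b
        omega
      · rw [h0] at hN
        exact pow_eq_zero_iff (n := 3) (by norm_num) |>.1 hN.symm
    subst hb
    subst h0
    norm_num
  · have h1 : 3 * (N - 1) + 6 = 3 * N + 3 := by omega
    rw [h1]

/-- **The Hodge conjecture**, counting the copies of `X`. -/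
theorem hc_powers (T : AHS.HodgeTheory ops) (X : 𝒱.Obj) (hp : Polarisable T X) {b N : ℕ}
    (hb : finrank T.W.K (T.W.H X) = b)
    (hN : N = (2 * b) ^ (3 * b ^ 2) ∨ N = b ^ 3 ∧ TotallyRealCentre T X) :
    (HCFor T (pw X (N - 1)) → ∀ n, HCFor T (pw X (n - 1))) ∧
    ∀ ε : ℝ, 0 < ε → ∀ n : ℕ, (2 * b : ℝ) ^ (3 * N + 3) / ε ^ 2 ≤ n →
      (1 / 2 + ε) * hodgeDim T (pw X (n - 1)) < cycleRank ops (pw X (n - 1)) →
      ∀ m, HCFor T (pw X (m - 1)) := by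
  obtain ⟨h1, h2⟩ := hc_main T X hp hb (bound_sub hN)
  exact ⟨fun h n => h1 h (n - 1), fun ε hε n hn h m =>
    h2 ε hε (n - 1) (bound_half hn hN) h (m - 1)⟩

/-- **Absolutely Hodge classes**, counting the copies of `X`. -/
theorem abs_powers (T : AHS.HodgeTheory ops) (D : Full.Conjugates T) (X : 𝒱.Obj)
    (hp : Polarisable T X) {b N : ℕ} (hb : finrank T.W.K (T.W.H X) = b)
    (hN : N = (2 * b) ^ (3 * b ^ 2) ∨ N = b ^ 3 ∧ TotallyRealCentre T X) :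
    ((∀ j c, IsHodge T (pw X (N - 1)) j c → Full.IsAbsHodge D (pw X (N - 1)) j c) →
      ∀ n, ∀ j c, IsHodge T (pw X (n - 1)) j c → Full.IsAbsHodge D (pw X (n - 1)) j c) ∧
    ∀ ε : ℝ, 0 < ε → ∀ n : ℕ, (2 * b : ℝ) ^ (3 * N + 3) / ε ^ 2 ≤ n →
      (1 / 2 + ε) * hodgeDim T (pw X (n - 1)) < Full.absDim D (pw X (n - 1)) →
      ∀ m, ∀ j c, IsHodge T (pw X (m - 1)) j c → Full.IsAbsHodge D (pw X (m - 1)) j c := by
  obtain ⟨h1, h2⟩ := abs_main T D X hp hb (bound_sub hN)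
  exact ⟨fun h n => h1 h (n - 1), fun ε hε n hn h m =>
    h2 ε hε (n - 1) (bound_half hn hN) h (m - 1)⟩

end powers

end Pool.Agent.Q60.PB
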