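import Mathlib.Analysis.Complex.Basic
import Mathlib.RingTheory.MvPolynomial.Basic
import Mathlib.LinearAlgebra.Dimension.Constructions
import Mathlib.LinearAlgebra.FiniteDimensional.Basic

/-!
# The dimension of the space of the polynomials of bounded degree
-/

open MvPolynomial Module

namespace Pool.Agent.Q60.PB

/-- **A bound for the dimension of the space of the polynomials of degree at most `m`.** -/
theorem finrank_restrict_le (σ : Type) [Fintype σ] [DecidableEq σ] (m : ℕ) {y : ℝ} (hy : 0 < y) :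
    (finrank ℂ (restrictTotalDegree σ ℂ m) : ℝ) * y ^ Fintype.card σ ≤
      (1 + y) ^ (m + Fintype.card σ) := by
  set s : Set (σ →₀ ℕ) := {n | (n.sum fun _ e => e) ≤ m} with hs
  let b : Basis s ℂ (restrictTotalDegree σ ℂ m) := basisRestrictSupport ℂ s
  let F : Finset (σ → ℕ) := Fintype.piFinset fun _ => Finset.range (m + 1)
  have hsum : ∀ n : s, ∑ i, (n : σ →₀ ℕ) i ≤ m := by
    intro n
    have h1 := n.2
    change ((n : σ →₀ ℕ).sum fun _ e => e) ≤ m at h1
    rwa [Finsupp.sum_fintype _ _ (fun _ => rfl)] at h1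
  have hF : ∀ n : s, ((n : σ →₀ ℕ) : σ → ℕ) ∈ F := by
    intro n
    rw [Fintype.mem_piFinset]
    intro i
    rw [Finset.mem_range]
    exact Nat.lt_succ_of_le ((Finset.single_le_sum (fun _ _ => Nat.zero_le _)
      (Finset.mem_univ i)).trans (hsum n))
  have hinj : Function.Injective fun n : s => (⟨((n : σ →₀ ℕ) : σ → ℕ), hF n⟩ : F) := by
    intro a b h
    apply Subtype.ext
    apply DFunLike.coe_injective
    exact congrArg Subtype.val h
  have : Finite s := Finite.of_injective _ hinj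
  have : Fintype s := Fintype.ofFinite s
  rw [finrank_eq_card_basis b]
  have hy1 : 0 < 1 + y := by linarith
  set z : ℝ := (1 + y)⁻¹ with hz
  have hz0 : 0 < z := inv_pos.2 hy1
  have hz1 : z ≤ 1 := inv_le_one_of_one_le₀ (by linarith)
  have h1 : (Fintype.card s : ℝ) * z ^ m ≤ ∑ n : s, ∏ i, z ^ ((n : σ →₀ ℕ) i) := by
    rw [← nsmul_eq_mul, ← Finset.card_univ, ← Finset.sum_const]
    refine Finset.sum_le_sum fun n _ => ?_
    rw [Finset.prod_pow_eq_pow_sum]
    exact pow_le_pow_of_le_one hz0.le hz1 (hsum n)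
  have h2 : ∑ n : s, ∏ i, z ^ ((n : σ →₀ ℕ) i) ≤ ∑ f ∈ F, ∏ i, z ^ (f i) := by
    rw [← Finset.sum_coe_sort F fun f => ∏ i, z ^ (f i)]
    have h3 : ∑ n : s, ∏ i, z ^ ((n : σ →₀ ℕ) i) = ∑ f ∈ Finset.univ.image
        (fun n : s => (⟨((n : σ →₀ ℕ) : σ → ℕ), hF n⟩ : F)), ∏ i, z ^ ((f : σ → ℕ) i) := by
      rw [Finset.sum_image]
      intro a _ b _ h
      exact hinj h
    rw [h3]
    refine Finset.sum_le_sum_of_subset_of_nonneg (Finset.subset_univ _) fun f _ _ => ?_
    exact Finset.prod_nonneg fun i _ => pow_nonneg hz0.le _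
  have h3 : ∑ f ∈ F, ∏ i, z ^ (f i) = (∑ k ∈ Finset.range (m + 1), z ^ k) ^ Fintype.card σ := by
    have h4 := Finset.prod_univ_sum (fun _ : σ => Finset.range (m + 1)) (fun _ k => z ^ k)
    rw [Finset.prod_const, Finset.card_univ] at h4
    exact h4.symm
  have h4 : ∑ k ∈ Finset.range (m + 1), z ^ k ≤ (1 + y) / y := by
    have h5 := geom_sum_mul_neg z (m + 1)
    have h6 : 1 - z = y / (1 + y) := by
      rw [hz]
      field_simp
      ring
    rw [h6] at h5
    rw [le_div_iff₀ hy]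
    have h7 : (∑ k ∈ Finset.range (m + 1), z ^ k) * y =
        ((∑ k ∈ Finset.range (m + 1), z ^ k) * (y / (1 + y))) * (1 + y) := by
      field_simp
    rw [h7, h5]
    have h8 : 0 ≤ z ^ (m + 1) := pow_nonneg hz0.le _
    nlinarith
  have h5 : (Fintype.card s : ℝ) * z ^ m ≤ ((1 + y) / y) ^ Fintype.card σ := by
    refine h1.trans (h2.trans ?_)
    rw [h3]
    exact pow_le_pow_left₀ (Finset.sum_nonneg fun k _ => pow_nonneg hz0.le _) h4 _
  have h6 : z ^ m * (1 + y) ^ m = 1 := by
    rw [← mul_pow, hz, inv_mul_cancel₀ hy1.ne', one_pow]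
  calc (Fintype.card s : ℝ) * y ^ Fintype.card σ
      = ((Fintype.card s : ℝ) * z ^ m) * ((1 + y) ^ m * y ^ Fintype.card σ) := by
        rw [mul_assoc, ← mul_assoc (z ^ m), h6, one_mul]
    _ ≤ ((1 + y) / y) ^ Fintype.card σ * ((1 + y) ^ m * y ^ Fintype.card σ) := by
        refine mul_le_mul_of_nonneg_right h5 ?_
        positivity
    _ = (1 + y) ^ (m + Fintype.card σ) := by
        rw [div_pow, pow_add]
        field_simp

end Pool.Agent.Q60.PB
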