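import Pool.Agent.Q60.PB.Rep
import Pool.Agent.Q60.PB.Mon
import Pool.Agent.Q60.ED.Sep2
import Pool.Agent.Q60.ED.TP
import Mathlib.Analysis.CStarAlgebra.Matrix
import Mathlib.Topology.Algebra.Star.Unitary
import Mathlib.Analysis.Polynomial.Basic

/-!
# Compact groups of unitary matrices and the invariants of bounded degree

Let `K` be a closed group of unitary matrices and let `γ` be a unitary matrix which fixes all
tensors of degree at most `2 m` fixed by `K`. If the traces of the elements of `K` and of `γ K` are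
real and the polynomial `P` of degree at most `m` has values of absolute value at most one at the
traces of the elements of `γ K`, then its value at the trace of the unit matrix is bounded.
-/

set_option linter.unusedSectionVars false

open MeasureTheory ContinuousMap Module Matrix MvPolynomial

namespace Pool.Agent.Q60.PB

open Pool.Agent.Q60.ED

variable {ι : Type} [Fintype ι] [DecidableEq ι]

lemma isCompact_unitary : IsCompact (Matrix.unitaryGroup ι ℂ : Set (Matrix ι ι ℂ)) := by
  have h1 : IsCompact (Set.univ.pi fun _ : ι => Set.univ.pi fun _ : ι =>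
      Metric.closedBall (0 : ℂ) 1) :=
    isCompact_univ_pi fun _ => isCompact_univ_pi fun _ => isCompact_closedBall _ _
  refine IsCompact.of_isClosed_subset h1 isClosed_unitary ?_
  intro M hM i _ j _
  rw [mem_closedBall_zero_iff]
  exact entry_norm_bound_of_unitary hM i j

instance : CompactSpace (Matrix.unitaryGroup ι ℂ) :=
  isCompact_iff_compactSpace.1 isCompact_unitary

variable (K : Subgroup (Matrix.unitaryGroup ι ℂ))

/-- The matrix of an element. -/
def mt (u : K) : Matrix ι ι ℂ := ((u : Matrix.unitaryGroup ι ℂ) : Matrix ι ι ℂ)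

lemma continuous_mt : Continuous (mt K) := continuous_subtype_val.comp continuous_subtype_val

lemma mt_mul (u v : K) : mt K (u * v) = mt K u * mt K v := rfl

lemma mt_one : mt K 1 = 1 := rfl

/-- The coordinate functions. -/
noncomputable def crd (p : ι × ι) : C(K, ℂ) where
  toFun u := mt K u p.1 p.2
  continuous_toFun := (continuous_mt K).matrix_elem p.1 p.2

/-- The restriction of the polynomials. -/
noncomputable def Phi : MvPolynomial (ι × ι) ℂ →ₐ[ℂ] C(K, ℂ) := aeval (crd K)

/-- The space of the polynomials of degree at most `m` in the coordinates. -/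
noncomputable def Em (m : ℕ) : Submodule ℂ C(K, ℂ) :=
  (restrictTotalDegree (ι × ι) ℂ m).map (Phi K).toLinearMap

instance (m : ℕ) : FiniteDimensional ℂ (Em K m) :=
  inferInstanceAs (FiniteDimensional ℂ
    ((restrictTotalDegree (ι × ι) ℂ m).map (Phi K).toLinearMap : Submodule ℂ C(K, ℂ)))

/-- The translation as a homomorphism of algebras. -/
noncomputable def ltrA (g : K) : C(K, ℂ) →ₐ[ℂ] C(K, ℂ) :=
  ContinuousMap.compRightAlgHom ℂ ℂ ⟨fun x => g * x, by fun_prop⟩

lemma ltrA_apply (g : K) (f : C(K, ℂ)) : ltrA K g f = ltr g f := rfl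

lemma ltr_mem {m : ℕ} (g : K) {f : C(K, ℂ)} (hf : f ∈ Em K m) : ltr g f ∈ Em K m := by
  obtain ⟨p, hp, rfl⟩ := hf
  let θ : MvPolynomial (ι × ι) ℂ →ₐ[ℂ] MvPolynomial (ι × ι) ℂ :=
    aeval fun q : ι × ι => ∑ k, MvPolynomial.C (mt K g q.1 k) * MvPolynomial.X (k, q.2)
  have h1 : (ltrA K g).comp (Phi K) = (Phi K).comp θ := by
    apply MvPolynomial.algHom_ext
    intro q
    rw [AlgHom.comp_apply, AlgHom.comp_apply, Phi, aeval_X]
    simp only [θ, aeval_X, map_sum, map_mul, aeval_C]
    ext u
    rw [ltrA_apply, ltr_apply, ContinuousMap.coe_sum, Finset.sum_apply]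
    change mt K (g * u) q.1 q.2 = _
    rw [mt_mul, Matrix.mul_apply]
    rfl
  refine ⟨θ p, ?_, ?_⟩
  · change θ p ∈ restrictTotalDegree (ι × ι) ℂ m
    rw [SetLike.mem_coe, mem_restrictTotalDegree] at hp
    rw [mem_restrictTotalDegree]
    refine (totalDegree_aeval_le _ (fun q => ?_) p).trans hp
    refine totalDegree_finsetSum_le fun k _ => ?_
    refine (totalDegree_mul _ _).trans ?_
    rw [totalDegree_C, zero_add]
    exact (totalDegree_X _).le
  · exact (DFunLike.congr_fun h1 p).symm

/-- The trace of an element. -/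
noncomputable def tr (u : K) : ℂ := (mt K u).trace

lemma continuous_tr : Continuous (tr K) := (continuous_mt K).matrix_trace

/-- The polynomial whose values are the traces. -/
noncomputable def trX : MvPolynomial (ι × ι) ℂ := ∑ i, MvPolynomial.X (i, i)

lemma Phi_trX (u : K) : Phi K trX u = tr K u := by
  rw [trX, map_sum, ContinuousMap.coe_sum, Finset.sum_apply, tr, Matrix.trace]
  refine Finset.sum_congr rfl fun i _ => ?_
  rw [Phi, aeval_X]
  rfl

/-- A polynomial in the trace. -/
noncomputable def pF (P : Polynomial ℂ) : C(K, ℂ) where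
  toFun u := P.eval (tr K u)
  continuous_toFun := P.continuous.comp (continuous_tr K)

lemma pF_apply (P : Polynomial ℂ) (u : K) : pF K P u = P.eval (tr K u) := rfl

lemma pF_mem {P : Polynomial ℂ} {m : ℕ} (hP : P.natDegree ≤ m) : pF K P ∈ Em K m := by
  refine ⟨Polynomial.aeval trX P, ?_, ?_⟩
  · change _ ∈ restrictTotalDegree (ι × ι) ℂ m
    rw [mem_restrictTotalDegree, Polynomial.aeval_eq_sum_range]
    refine totalDegree_finsetSum_le fun k hk => ?_
    refine (totalDegree_smul_le _ _).trans ((totalDegree_pow _ _).trans ?_)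
    have h1 : (trX : MvPolynomial (ι × ι) ℂ).totalDegree ≤ 1 :=
      totalDegree_finsetSum_le fun i _ => (totalDegree_X _).le
    have h2 := Finset.mem_range.1 hk
    calc k * (trX : MvPolynomial (ι × ι) ℂ).totalDegree ≤ k * 1 := Nat.mul_le_mul_left _ h1
      _ ≤ m := by omega
  · change Phi K (Polynomial.aeval trX P) = pF K P
    ext u
    rw [← Polynomial.aeval_algHom_apply, pF_apply, Polynomial.aeval_eq_sum_range,
      ContinuousMap.coe_sum, Finset.sum_apply, Polynomial.eval_eq_sum_range]
    refine Finset.sum_congr rfl fun k _ => ?_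
    rw [ContinuousMap.coe_smul, Pi.smul_apply, ContinuousMap.coe_pow, Pi.pow_apply, Phi_trX]
    rfl

lemma finrank_Em_le (m : ℕ) {y : ℝ} (hy : 0 < y) :
    (finrank ℂ (Em K m) : ℝ) * y ^ (Fintype.card ι ^ 2) ≤ (1 + y) ^ (m + Fintype.card ι ^ 2) := by
  have h1 := finrank_restrict_le (ι × ι) m hy
  have h2 : Fintype.card (ι × ι) = Fintype.card ι ^ 2 := by rw [Fintype.card_prod, sq]
  rw [h2] at h1
  refine le_trans (mul_le_mul_of_nonneg_right ?_ (by positivity)) h1
  exact_mod_cast Submodule.finrank_map_le _ _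

lemma trace_TP (g : Matrix ι ι ℂ) (n : ℕ) : (TP g n).trace = g.trace ^ n := by
  have h1 := Finset.prod_univ_sum (fun _ : Fin n => (Finset.univ : Finset ι)) (fun _ i => g i i)
  rw [Finset.prod_const, Finset.card_univ, Fintype.card_fin] at h1
  rw [Matrix.trace, Matrix.trace]
  refine Eq.trans ?_ h1.symm
  rw [Fintype.piFinset_univ]
  rfl

variable {K}

section meas

variable [MeasurableSpace K] [BorelSpace K] [CompactSpace K] (μ : Measure K) [μ.IsHaarMeasure]
  [IsProbabilityMeasure μ]

lemma integrable_of_cont {E : Type} [NormedAddCommGroup E] {f : K → E} (hf : Continuous f) :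
    Integrable f μ := hf.integrable_of_hasCompactSupport (HasCompactSupport.of_compactSpace _)

/-- The mean of the action on tensors. -/
noncomputable def mean (n : ℕ) : Matrix (Fin n → ι) (Fin n → ι) ℂ :=
  Matrix.of fun I J => ∫ u, TP (mt K u) n I J ∂μ

lemma cont_TP (n : ℕ) (I J : Fin n → ι) (g : Matrix ι ι ℂ) :
    Continuous fun u : K => TP (g * mt K u) n I J := by
  simp only [TP_apply]
  refine continuous_finsetProd _ fun k _ => ?_
  exact (continuous_const.matrix_mul (continuous_mt K)).matrix_elem _ _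

lemma TP_mul_mean (g : Matrix ι ι ℂ) (n : ℕ) (I J : Fin n → ι) :
    (TP g n * mean μ n) I J = ∫ u, TP (g * mt K u) n I J ∂μ := by
  rw [Matrix.mul_apply]
  have h1 : ∀ u : K, TP (g * mt K u) n I J = ∑ L, TP g n I L * TP (mt K u) n L J := by
    intro u
    rw [TP_mul, Matrix.mul_apply]
  simp only [h1]
  rw [integral_finsetSum]
  · refine Finset.sum_congr rfl fun L _ => ?_
    rw [integral_const_mul]
    rfl
  · intro L _
    have h2 := cont_TP (K := K) n L J 1
    simp only [Matrix.one_mul] at h2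
    exact integrable_of_cont μ (continuous_const.mul h2)

lemma mean_fixed (n : ℕ) (h : K) : TP (mt K h) n * mean μ n = mean μ n := by
  ext I J
  rw [TP_mul_mean]
  have h1 : ∀ u : K, TP (mt K h * mt K u) n I J = TP (mt K (h * u)) n I J := fun u => rfl
  simp only [h1]
  exact integral_mul_left_eq_self (μ := μ) (fun u => TP (mt K u) n I J) h

lemma trace_mul_mean (g : Matrix ι ι ℂ) (n : ℕ) :
    (TP g n * mean μ n).trace = ∫ u, (g * mt K u).trace ^ n ∂μ := by
  have h1 : ∀ u : K, (g * mt K u).trace ^ n = ∑ I, TP (g * mt K u) n I I := by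
    intro u
    rw [← trace_TP]
    rfl
  simp only [h1]
  rw [integral_finsetSum]
  · rw [Matrix.trace]
    refine Finset.sum_congr rfl fun I _ => ?_
    rw [Matrix.diag_apply, TP_mul_mean]
  · intro I _
    exact integrable_of_cont μ (cont_TP n I I g)

/-- **The moments of the traces of the elements of a coset.** -/
lemma moment_eq {D : ℕ} {γ : Matrix ι ι ℂ} (hfix : ∀ n ≤ D, ∀ τ : (Fin n → ι) → ℂ,
      (∀ u : K, tpow (mt K u) n τ = τ) → tpow γ n τ = τ) {n : ℕ} (hn : n ≤ D) :
    ∫ u, (γ * mt K u).trace ^ n ∂μ = ∫ u, (mt K u).trace ^ n ∂μ := by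
  have h1 : TP γ n * mean μ n = mean μ n := by
    ext I J
    have h2 := hfix n hn (fun L => mean μ n L J) (fun u => by
      rw [tpow_eq]
      funext L
      exact congrFun (congrFun (mean_fixed μ n u) L) J)
    rw [tpow_eq] at h2
    exact congrFun h2 I
  have h3 := trace_mul_mean μ γ n
  have h4 := trace_mul_mean (K := K) μ 1 n
  rw [TP_one, Matrix.one_mul] at h4
  simp only [Matrix.one_mul] at h4
  rw [← h3, h1, h4]

lemma poly_eq {D : ℕ} {γ : Matrix ι ι ℂ} (hfix : ∀ n ≤ D, ∀ τ : (Fin n → ι) → ℂ,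
      (∀ u : K, tpow (mt K u) n τ = τ) → tpow γ n τ = τ) {P : Polynomial ℂ}
    (hP : P.natDegree ≤ D) :
    ∫ u, P.eval (γ * mt K u).trace ∂μ = ∫ u, P.eval (mt K u).trace ∂μ := by
  simp only [Polynomial.eval_eq_sum_range]
  rw [integral_finsetSum, integral_finsetSum]
  · refine Finset.sum_congr rfl fun k hk => ?_
    rw [integral_const_mul, integral_const_mul, moment_eq μ hfix]
    have := Finset.mem_range.1 hk
    omega
  · intro k _
    exact integrable_of_cont μ (continuous_const.mul ((continuous_mt K).matrix_trace.pow _))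
  · intro k _
    exact integrable_of_cont μ (continuous_const.mul
      ((continuous_const.matrix_mul (continuous_mt K)).matrix_trace.pow _))

end meas

/-- **The bound for the value of a polynomial at the trace of the unit.** -/
theorem cpt_main (K : Subgroup (Matrix.unitaryGroup ι ℂ))
    (hK : IsClosed (K : Set (Matrix.unitaryGroup ι ℂ))) {m : ℕ} {γ : Matrix ι ι ℂ}
    (hfix : ∀ n ≤ m + m, ∀ τ : (Fin n → ι) → ℂ,
      (∀ u : K, tpow (mt K u) n τ = τ) → tpow γ n τ = τ)
    (hreal : ∀ u : K, (mt K u).trace.im = 0) (hreal' : ∀ u : K, (γ * mt K u).trace.im = 0)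
    {P : Polynomial ℝ} (hP : P.natDegree ≤ m)
    (hsmall : ∀ u : K, |P.eval (γ * mt K u).trace.re| ≤ 1) {y : ℝ} (hy : 0 < y) :
    (P.eval (Fintype.card ι : ℝ)) ^ 2 * y ^ (Fintype.card ι ^ 2) ≤
      (1 + y) ^ (m + Fintype.card ι ^ 2) := by
  have hc : CompactSpace K := isCompact_iff_compactSpace.1 hK.isCompact
  let _ : MeasurableSpace K := borel K
  have _ : BorelSpace K := ⟨rfl⟩
  set μ : Measure K := Measure.haarMeasure ⊤ with hμ
  have hprob : IsProbabilityMeasure μ := ⟨by
    have h1 := Measure.haarMeasure_self (K₀ := (⊤ : TopologicalSpace.PositiveCompacts K))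
    rw [TopologicalSpace.PositiveCompacts.coe_top] at h1
    exact h1⟩
  set Pc : Polynomial ℂ := P.map (algebraMap ℝ ℂ) with hPc
  have hPcd : Pc.natDegree ≤ m := (Polynomial.natDegree_map_le).trans hP
  have hev : ∀ z : ℂ, z.im = 0 → Pc.eval z = ((P.eval z.re : ℝ) : ℂ) := by
    intro z hz
    have h1 : z = (algebraMap ℝ ℂ) z.re := by
      apply Complex.ext
      · rfl
      · exact hz
    conv_lhs => rw [h1, hPc, Polynomial.eval_map_algebraMap]
    rw [Polynomial.aeval_algebraMap_apply]
    rfl
  have h1 := norm_sq_one_le μ (Em K m) (fun g f hf => ltr_mem K g hf) (pF_mem K hPcd)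
  have h2 : ‖pF K Pc 1‖ ^ 2 = (P.eval (Fintype.card ι : ℝ)) ^ 2 := by
    have h3 : (mt K 1).trace = ((Fintype.card ι : ℝ) : ℂ) := by
      rw [mt_one, Matrix.trace_one]
      push_cast
      rfl
    rw [pF_apply, tr, h3, hev _ (Complex.ofReal_im _), Complex.ofReal_re, Complex.norm_real,
      Real.norm_eq_abs, sq_abs]
  rw [h2] at h1
  -- the mean of the square
  have h3 : ∫ u : K, ‖pF K Pc u‖ ^ 2 ∂μ ≤ 1 := by
    have e1 : ∀ u : K, ((‖pF K Pc u‖ ^ 2 : ℝ) : ℂ) = (Pc ^ 2).eval (mt K u).trace := by
      intro u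
      rw [pF_apply, tr, Polynomial.eval_pow, hev _ (hreal u), Complex.norm_real, Real.norm_eq_abs,
        sq_abs]
      push_cast
      rfl
    have e2 : ((∫ u : K, ‖pF K Pc u‖ ^ 2 ∂μ : ℝ) : ℂ) =
        ((∫ u : K, (P.eval (γ * mt K u).trace.re) ^ 2 ∂μ : ℝ) : ℂ) := by
      rw [← integral_complex_ofReal, ← integral_complex_ofReal]
      have e3 : ∀ u : K, (((P.eval (γ * mt K u).trace.re) ^ 2 : ℝ) : ℂ) =
          (Pc ^ 2).eval (γ * mt K u).trace := by
        intro u
        rw [Polynomial.eval_pow, hev _ (hreal' u)]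
        push_cast
        rfl
      simp only [e1, e3]
      refine (poly_eq μ hfix ?_).symm
      refine (Polynomial.natDegree_pow_le).trans ?_
      omega
    have e4 : ∫ u : K, ‖pF K Pc u‖ ^ 2 ∂μ = ∫ u : K, (P.eval (γ * mt K u).trace.re) ^ 2 ∂μ := by
      exact_mod_cast e2
    rw [e4]
    have e5 : (1 : ℝ) = ∫ _u : K, (1 : ℝ) ∂μ := by simp
    rw [e5]
    refine integral_mono ?_ (integrable_const _) fun u => ?_
    · refine integrable_of_cont μ ?_
      refine Continuous.pow (P.continuous.comp (Complex.continuous_re.comp ?_)) 2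
      exact (continuous_const.matrix_mul (continuous_mt K)).matrix_trace
    · change (P.eval (γ * mt K u).trace.re) ^ 2 ≤ 1
      rw [← sq_abs]
      exact pow_le_one₀ (abs_nonneg _) (hsmall u)
  have h4 : (P.eval (Fintype.card ι : ℝ)) ^ 2 ≤ finrank ℂ (Em K m) := by
    refine h1.trans ?_
    have h5 : (0 : ℝ) ≤ finrank ℂ (Em K m) := Nat.cast_nonneg _
    nlinarith
  calc (P.eval (Fintype.card ι : ℝ)) ^ 2 * y ^ (Fintype.card ι ^ 2)
      ≤ finrank ℂ (Em K m) * y ^ (Fintype.card ι ^ 2) :=
        mul_le_mul_of_nonneg_right h4 (by positivity)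
    _ ≤ _ := finrank_Em_le K m hy

end Pool.Agent.Q60.PB
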