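import Pool.Agent.Q60.PB.Main
import Pool.Agent.Q60.FI.HdgM

/-!
# A closed system of Hodge classes which contains the Hodge classes on the power `X ^ (b ^ 3)`
-/

open CategoryTheory AlgebraicGeometry TensorProduct

set_option linter.unusedSectionVars false

universe u v

namespace Pool.Agent.Q60.PB

open Module Matrix
open Pool.Agent.H914 Pool.Agent.H914.VarClass Pool.Agent.H914.VarClass.Obj
  Pool.Agent.H914.WeilCohomology
open Pool.Agent.Y133.Half Pool.Agent.Y121.AH Pool.Agent.Q60.ED Pool.Agent.Q60.HD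
open Pool.Agent.Q60.FI

variable {k : Type u} [Field k] {𝒱 : VarClass k} {ops : CycleOps 𝒱} {T : HodgeTheory ops}
  {X : 𝒱.Obj}

/-- If the cohomology of `X` has dimension at most one, then all classes on the powers belong to
the system. -/
lemma le_of_finrank_le_one (S : Sys T.W) (hb : finrank T.W.K (T.W.H X) ≤ 1) (n : ℕ)
    (c : T.W.H (pw X n)) : c ∈ S.C (pw X n) := by
  have h1 : finrank T.W.K (T.W.H (pw X n)) ≤ 1 := by
    rw [finrank_pw]
    exact Nat.pow_le_one_iff (Nat.succ_ne_zero n) |>.2 hb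
  by_cases hX : Nontrivial (T.W.H (pw X n))
  · have h2 : finrank T.W.K (T.W.H (pw X n)) = 1 := le_antisymm h1 Module.finrank_pos
    obtain ⟨a, ha⟩ := (finrank_eq_one_iff_of_nonzero' (1 : T.W.H (pw X n)) one_ne_zero).1 h2 c
    rw [← ha]
    exact Submodule.smul_mem _ _ (S.one _)
  · rw [not_nontrivial_iff_subsingleton] at hX
    rw [Subsingleton.elim c 0]
    exact Submodule.zero_mem _

/-- **The single power `X ^ (b ^ 3)` decides**, if there are no central skew elements. -/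
theorem one_power (hR : RealH T X) {φ : Module.End T.W.K (T.W.H X)} (hφ : IsPol T X φ)
    (S : Sys T.W) (hS : ∀ Z, S.C Z ≤ (hodgeSys T).C Z) (hcen : NoSkew T X) {N : ℕ}
    (hN : finrank T.W.K (T.W.H X) ^ 3 ≤ N + 1)
    (h : (hodgeSys T).C (pw X N) ≤ S.C (pw X N)) (n : ℕ) :
    (hodgeSys T).C (pw X n) ≤ S.C (pw X n) := by
  classical
  rcases Nat.lt_or_ge (finrank T.W.K (T.W.H X)) 2 with hb | hb
  · intro c _
    exact le_of_finrank_le_one S (by omega) n c
  have hX : Nontrivial (T.W.H X) := Module.nontrivial_of_finrank_pos (R := T.W.K) (by omega)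
  have hb3 : 8 ≤ finrank T.W.K (T.W.H X) ^ 3 := by
    calc 8 = 2 ^ 3 := by norm_num
      _ ≤ _ := Nat.pow_le_pow_left hb 3
  have hle : ∀ m, m + 1 ≤ finrank T.W.K (T.W.H X) ^ 3 →
      (hodgeSys T).C (pw X m) ≤ S.C (pw X m) := fun m hm => le_of_le S (by omega) h
  obtain ⟨e, he⟩ := exists_hbasis T.W X
  choose a ha using he
  have h2 : (hodgeSys T).C (X.prod X) ≤ S.C (X.prod X) := hle 1 (by omega)
  have hOp : (hodgeSys T).Op X X ≤ S.Op X X := Submodule.map_mono h2
  have hpar : par (T.W.isInternal X) ∈ S.Op X X := hOp par_mem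
  have hφS : φ ∈ S.Op X X := hOp hφ.mem
  have hQ : ∀ i j, ((Qm e φ i j : ℚ) : T.W.K) = T.W.tr X (φ (e i) * e j) := fun i j => rt_spec _
  have hcard : Fintype.card (Fin (finrank T.W.K (T.W.H X))) = finrank T.W.K (T.W.H X) :=
    Fintype.card_fin _
  have hTS : ∀ m ≤ finrank T.W.K (T.W.H X) ^ 3, (phs e hR hφ).T m ≤ HD.crd e S m := by
    intro m hm t ht
    rw [T_eq_crd] at ht
    cases m with
    | zero => exact mem_crd_zero e t
    | succ m =>
      rw [mem_crd_succ] at ht ⊢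
      exact hle m hm ht
  let P : PSys (phs e hR hφ).Q :=
    { S := HD.crd e S
      one := mem_crd_zero e _
      mul := fun hs ht => crd_mul e hs ht
      perm := fun σ _ ht => crd_perm e ha hpar σ ht
      contr := fun hs ht => crd_contr e ha hpar hφS hQ hs ht
      cas := hTS 2 (by omega) PHS.Om_mem }
  let P' : PSys (phs e hR hφ).Q :=
    { S := HD.crd e (hodgeSys T)
      one := mem_crd_zero e _
      mul := fun hs ht => crd_mul e hs ht
      perm := fun σ _ ht => crd_perm e ha par_mem σ ht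
      contr := fun hs ht => crd_contr e ha par_mem hφ.mem hQ hs ht
      cas := by
        rw [← T_eq_crd e hR hφ]
        exact PHS.Om_mem }
  have hPle : ∀ m, P.S m ≤ (phs e hR hφ).T m := by
    intro m
    rw [T_eq_crd]
    intro t ht Z f
    exact hS _ (ht Z f)
  intro c hc
  obtain ⟨t, rfl⟩ := exists_tensor e c
  rw [← mem_crd_succ, ← T_eq_crd e hR hφ] at hc
  exact (mem_crd_succ (e := e)).1 (poly_bound (phs e hR hφ) P P' hPle
    (fun m => (T_eq_crd e hR hφ m).symm) (by rw [hcard]; exact hb)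
    (fun m hm => hTS m (by rwa [hcard] at hm))
    (fun c hc hcom hsk => cen_of e hR hφ hcen c hc hcom hsk) (n + 1) hc)

lemma even_bound {b : ℕ} (hb : 2 ≤ b) : 8 ≤ b ^ 3 + b ^ 3 % 2 ∧ (b ^ 3 + b ^ 3 % 2) % 2 = 0 := by
  have h1 : 8 ≤ b ^ 3 := by
    calc 8 = 2 ^ 3 := by norm_num
      _ ≤ _ := Nat.pow_le_pow_left hb 3
  omega

/-- **The uniform half law**, if there are no central skew elements. -/
theorem uniform (hR : RealH T X) {φ : Module.End T.W.K (T.W.H X)} (hφ : IsPol T X φ)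
    (S : Sys T.W) (hS : ∀ Z, S.C Z ≤ (hodgeSys T).C Z)
    (hS1 : ∀ Z : 𝒱.Obj, ∀ z : Z.Cycles, Z.IsCyc 1 z → T.W.cl Z z ∈ S.C Z)
    (hcen : NoSkew T X) {ε : ℝ} (hε : 0 < ε)
    {n : ℕ} (hn : (2 * (finrank T.W.K (T.W.H X) : ℝ)) ^
      (3 * finrank T.W.K (T.W.H X) ^ 3 + 3) / ε ^ 2 ≤ n + 1)
    (h : (1 / 2 + ε) * finrank T.W.K ((hodgeSys T).C (pw X n)) < S.a (pw X n)) (m : ℕ) :
    (hodgeSys T).C (pw X m) ≤ S.C (pw X m) := by
  rcases Nat.lt_or_ge (finrank T.W.K (T.W.H X)) 2 with hb | hb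
  · intro c _
    exact le_of_finrank_le_one S (by omega) m c
  have hX : Nontrivial (T.W.H X) := Module.nontrivial_of_finrank_pos (R := T.W.K) (by omega)
  obtain ⟨l, hl, hl1⟩ := exists_tr_sys (X := X) S hS1
  obtain ⟨h8, h2⟩ := even_bound hb
  have hpos : ∀ n, 0 < S.al X n := by
    intro n
    obtain ⟨m, hm, hm1⟩ := S.exists_lam hl hl1 n
    refine S.a_pos (Sys.xp_mem_C S hm hm) ?_
    rw [tr_xp, hm1, mul_one]
  have hbot : ∀ m, S.C (pw X m) ≠ ⊥ := by
    intro m hm
    obtain ⟨y, hy, hy1⟩ := S.exists_lam hl hl1 m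
    rw [hm, Submodule.mem_bot] at hy
    exact ne_zero_of_tr hy1 hy
  by_contra hcon
  have hlt : ∀ m, finrank T.W.K (T.W.H X) ^ 3 + finrank T.W.K (T.W.H X) ^ 3 % 2 ≤ m + 1 →
      S.C (pw X m) < (hodgeSys T).C (pw X m) := by
    intro m' hm'
    refine lt_of_le_of_ne (hS _) fun heq => hcon ?_
    exact one_power hR hφ S hS hcen (N := m') (by omega) heq.ge m
  have hb1 : (1 : ℝ) ≤ 2 * (finrank T.W.K (T.W.H X) : ℝ) := by
    have : (2 : ℝ) ≤ (finrank T.W.K (T.W.H X) : ℝ) := by exact_mod_cast hb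
    linarith
  have hn' : (2 * (finrank T.W.K (T.W.H X) : ℝ)) ^ (3 * (finrank T.W.K (T.W.H X) ^ 3 +
      finrank T.W.K (T.W.H X) ^ 3 % 2)) / ε ^ 2 ≤ n + 1 := by
    refine le_trans ?_ hn
    exact div_le_div_of_nonneg_right (pow_le_pow_right₀ hb1 (by omega)) (by positivity)
  have key := uniform_half hS (by omega) hpos hbot h8 h2 hlt hε (n := n) hn'
  exact absurd key (not_le.2 h)

end Pool.Agent.Q60.PB
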