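import Mathlib.Analysis.SpecialFunctions.Trigonometric.Chebyshev.RootsExtrema
import Mathlib.Analysis.SpecialFunctions.Log.Deriv
import Mathlib.Analysis.Complex.ExponentialBounds

/-!
# The numerical estimate
-/

open Polynomial Polynomial.Chebyshev Real

namespace Pool.Agent.Q60.PB

/-- The Chebyshev polynomial for the interval from `-b` to `b - 1`. -/
noncomputable def chb (b m : ℕ) : ℝ[X] :=
  (T ℝ m).comp (C (2 / (2 * b - 1 : ℝ)) * X + C (1 / (2 * b - 1 : ℝ)))

lemma chb_eval (b m : ℕ) (s : ℝ) :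
    (chb b m).eval s = (T ℝ m).eval ((2 * s + 1) / (2 * b - 1)) := by
  rw [chb, eval_comp, eval_add, eval_mul, eval_C, eval_C, eval_X]
  congr 1
  ring

lemma chb_natDegree (b m : ℕ) : (chb b m).natDegree ≤ m := by
  refine natDegree_comp_le.trans ?_
  have h1 : (T ℝ (m : ℤ)).natDegree = m := by
    rw [natDegree_T]
    simp
  have h2 : (C (2 / (2 * b - 1 : ℝ)) * X + C (1 / (2 * b - 1 : ℝ))).natDegree ≤ 1 :=
    natDegree_linear_le
  rw [h1]
  calc m * _ ≤ m * 1 := Nat.mul_le_mul_left _ h2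
    _ = m := mul_one _

lemma chb_small {b m : ℕ} (hb : 2 ≤ b) {s : ℝ} (h1 : -(b : ℝ) ≤ s) (h2 : s ≤ b - 1) :
    |(chb b m).eval s| ≤ 1 := by
  rw [chb_eval]
  have hb' : (2 : ℝ) ≤ b := by exact_mod_cast hb
  have hpos : 0 < 2 * (b : ℝ) - 1 := by linarith
  apply abs_eval_T_real_le_one
  rw [abs_le]
  constructor
  · rw [le_div_iff₀ hpos]
    linarith
  · rw [div_le_iff₀ hpos]
    linarith

lemma two_mul_le_log {u : ℝ} (h0 : 0 < u) (h1 : u < 1) : 2 * u ≤ log ((1 + u) / (1 - u)) := by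
  have h2 := hasSum_log_sub_log_of_abs_lt_one (x := u) (by rw [abs_of_pos h0]; exact h1)
  have h3 := h2.summable.sum_le_tsum {0} (fun k _ => by positivity)
  rw [h2.tsum_eq] at h3
  rw [log_div (by linarith) (by linarith)]
  simpa using h3

/-- The value of the polynomial at `b`. -/
lemma chb_large {b m : ℕ} (hb : 2 ≤ b) :
    exp (4 * m / √(2 * b)) / 4 ≤ ((chb b m).eval (b : ℝ)) ^ 2 := by
  have hb' : (2 : ℝ) ≤ b := by exact_mod_cast hb
  set s : ℝ := √(2 * b) with hs
  have hs2 : s ^ 2 = 2 * b := sq_sqrt (by linarith)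
  have hs0 : 0 < s := sqrt_pos.2 (by linarith)
  have hs1 : 1 < s := by nlinarith
  set ρ : ℝ := (1 + 1 / s) / (1 - 1 / s) with hρ
  have hu1 : 1 / s < 1 := by
    rw [div_lt_one hs0]
    exact hs1
  have hu0 : 0 < 1 / s := by positivity
  have hρ0 : 0 < ρ := div_pos (by linarith) (by linarith)
  have hρe : ρ = (s + 1) / (s - 1) := by
    rw [hρ]
    have : s - 1 ≠ 0 := by linarith
    field_simp
  have hlog : 2 / s ≤ log ρ := by
    have h1 := two_mul_le_log hu0 hu1
    have h2 : 2 * (1 / s) = 2 / s := by ring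
    rw [h2] at h1
    exact h1
  have hx : (2 * (b : ℝ) + 1) / (2 * b - 1) = cosh (log ρ) := by
    rw [cosh_log hρ0, hρe, ← hs2]
    have h1 : s - 1 ≠ 0 := by linarith
    have h2 : s + 1 ≠ 0 := by linarith
    have h3 : s ^ 2 - 1 ≠ 0 := by nlinarith
    field_simp
    ring
  rw [chb_eval, hx, T_real_cosh]
  have h1 : exp (m * log ρ) / 2 ≤ cosh (m * log ρ) := by
    rw [cosh_eq]
    have := exp_pos (-(m * log ρ))
    linarith
  have h2 : exp (2 * m / s) ≤ exp (m * log ρ) := by
    apply exp_le_exp.2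
    have h3 : (0 : ℝ) ≤ m := Nat.cast_nonneg _
    calc 2 * m / s = m * (2 / s) := by ring
      _ ≤ m * log ρ := mul_le_mul_of_nonneg_left hlog h3
  have h3 : exp (4 * m / s) = exp (2 * m / s) ^ 2 := by
    rw [← exp_nat_mul]
    congr 1
    push_cast
    ring
  rw [h3]
  have h4 : 0 < exp (2 * m / s) := exp_pos _
  push_cast
  nlinarith

/-- **The numerical estimate.** -/
lemma exists_poly (b : ℕ) (hb : 2 ≤ b) : ∃ (m : ℕ) (P : ℝ[X]) (y : ℝ), 0 < y ∧ m + m ≤ b ^ 3 ∧
    P.natDegree ≤ m ∧ (∀ s : ℝ, -(b : ℝ) ≤ s → s ≤ b - 1 → |P.eval s| ≤ 1) ∧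
      (1 + y) ^ (m + b ^ 2) < (P.eval (b : ℝ)) ^ 2 * y ^ (b ^ 2) := by
  rcases hb.eq_or_lt with h | h3
  · subst h
    refine ⟨4, chb 2 4, 1, one_pos, by norm_num, chb_natDegree _ _,
      fun s h1 h2 => chb_small le_rfl h1 h2, ?_⟩
    rw [chb_eval]
    have h1 : (T ℝ ((4 : ℕ) : ℤ)) = (T ℝ 2).comp (T ℝ 2) := by
      rw [← T_mul]
      norm_num
    rw [h1, eval_comp, T_two]
    norm_num
  · refine ⟨b ^ 3 / 2, chb b (b ^ 3 / 2), 2 / b, by positivity, by omega, chb_natDegree _ _,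
      fun s h1 h2 => chb_small hb h1 h2, ?_⟩
    set m := b ^ 3 / 2 with hm
    have hb' : (3 : ℝ) ≤ b := by exact_mod_cast h3
    have hm1 : (m : ℝ) ≤ (b : ℝ) ^ 3 / 2 := by
      have : 2 * m ≤ b ^ 3 := by omega
      have h4 : (2 * m : ℝ) ≤ (b : ℝ) ^ 3 := by exact_mod_cast this
      linarith
    have hm2 : ((b : ℝ) ^ 3 - 1) / 2 ≤ m := by
      have : b ^ 3 ≤ 2 * m + 1 := by omega
      have h4 : (b : ℝ) ^ 3 ≤ 2 * m + 1 := by exact_mod_cast this
      linarith
    set s : ℝ := √(2 * b) with hs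
    have hs2 : s ^ 2 = 2 * b := sq_sqrt (by linarith)
    have hs0 : 0 < s := sqrt_pos.2 (by linarith)
    have hs1 : 2.449 ≤ s := by
      rw [hs]
      apply le_sqrt_of_sq_le
      norm_num
      linarith
    have hlarge := chb_large (b := b) (m := m) hb
    rw [← hs] at hlarge
    have hb0 : (0 : ℝ) < b := by linarith
    -- the left side
    have h1 : (1 + 2 / (b : ℝ)) ^ (m + b ^ 2) ≤ exp (2 / b * (m + b ^ 2)) := by
      have h4 : 1 + 2 / (b : ℝ) ≤ exp (2 / b) := by
        have := add_one_le_exp (2 / (b : ℝ))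
        linarith
      calc (1 + 2 / (b : ℝ)) ^ (m + b ^ 2) ≤ exp (2 / b) ^ (m + b ^ 2) :=
            pow_le_pow_left₀ (by positivity) h4 _
        _ = exp (2 / b * (m + b ^ 2)) := by
            rw [← exp_nat_mul]
            congr 1
            push_cast
            ring
    have h2 : (2 / (b : ℝ)) ^ (b ^ 2) = exp (-(b ^ 2 * log (b / 2))) := by
      have h4 : (2 / (b : ℝ)) = exp (-log (b / 2)) := by
        rw [exp_neg, exp_log (by positivity)]
        rw [inv_div]
      conv_lhs => rw [h4]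
      rw [← exp_nat_mul]
      congr 1
      push_cast
      ring
    have h3' : exp (2 / b * (m + b ^ 2)) <
        exp (4 * m / s) / 4 * exp (-(b ^ 2 * log (b / 2))) := by
      have h4 : (4 : ℝ) = exp (2 * log 2) := by
        rw [two_mul, exp_add, exp_log (by norm_num)]
        norm_num
      have h5 : exp (4 * m / s) / 4 = exp (4 * m / s - 2 * log 2) := by
        rw [exp_sub, ← h4]
      rw [h5, ← exp_add]
      apply exp_lt_exp.2
      -- the logarithm
      have h6 : log (b / 2) ≤ s * 0.7072 - 2 + log 2 := by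
        have e1 : (b : ℝ) / 2 = (s / 2) ^ 2 := by
          rw [div_pow, hs2]
          ring
        have hsq2 : 0 < √(2 : ℝ) := sqrt_pos.2 (by norm_num)
        have e2 := log_le_sub_one_of_pos (x := s / 2 / √2) (by positivity)
        rw [log_div (by positivity) hsq2.ne', log_sqrt (by norm_num)] at e2
        have e3 : s / 2 / √2 * 2 = s * (1 / √2) := by
          field_simp
        have e4 : 1 / √(2 : ℝ) ≤ 0.7072 := by
          rw [div_le_iff₀ hsq2]
          have : (1.4141 : ℝ) ≤ √2 := by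
            apply le_sqrt_of_sq_le
            norm_num
          nlinarith
        rw [e1, log_pow]
        push_cast
        nlinarith
      have h7 : 4 * (m : ℝ) / s ≥ b ^ 2 * s - 2 / s := by
        have e1 : (b : ℝ) ^ 2 * s - 2 / s = 4 * (((b : ℝ) ^ 3 - 1) / 2) / s := by
          field_simp
          rw [hs2]
          ring
        rw [e1, ge_iff_le]
        apply div_le_div_of_nonneg_right _ hs0.le
        linarith
      have h8 : 2 / (b : ℝ) * (m + b ^ 2) ≤ b ^ 2 + 2 * b := by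
        rw [div_mul_eq_mul_div, div_le_iff₀ hb0]
        nlinarith
      have h9 : 2 / s ≤ 0.8167 := by
        rw [div_le_iff₀ hs0]
        nlinarith
      have h10 := log_two_lt_d9
      have h11 := log_two_gt_d9
      have h12 : (b : ℝ) ^ 2 * log (b / 2) ≤ b ^ 2 * (s * 0.7072 - 2 + log 2) :=
        mul_le_mul_of_nonneg_left h6 (by positivity)
      have h13 : (b : ℝ) ^ 2 * (1.0239) ≤ b ^ 2 * (s * 0.2928 + 1 - log 2) := by
        apply mul_le_mul_of_nonneg_left _ (by positivity)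
        nlinarith
      have h14 : 2 * (b : ℝ) + 2.21 < b ^ 2 * 1.0239 := by nlinarith
      nlinarith
    calc (1 + 2 / (b : ℝ)) ^ (m + b ^ 2) ≤ exp (2 / b * (m + b ^ 2)) := h1
      _ < exp (4 * m / s) / 4 * exp (-(b ^ 2 * log (b / 2))) := h3'
      _ ≤ ((chb b m).eval (b : ℝ)) ^ 2 * (2 / (b : ℝ)) ^ (b ^ 2) := by
          rw [h2]
          exact mul_le_mul_of_nonneg_right hlarge (exp_pos _).le

end Pool.Agent.Q60.PB
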