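import Pool.Agent.Q60.PB.Polar
import Mathlib.Analysis.CStarAlgebra.Matrix
import Mathlib.Analysis.SpecialFunctions.Complex.Arg

/-!
# Unitary matrices with eigenvalues in the right half-plane
-/

set_option linter.unusedSectionVars false

namespace Pool.Agent.Q60.PB

open Matrix

open scoped ComplexOrder

variable {ι : Type} [Fintype ι] [DecidableEq ι]

lemma conj_unitary {u : Matrix ι ι ℂ} (hu : u ∈ Matrix.unitaryGroup ι ℂ) :
    uᴴ * u = 1 ∧ u * uᴴ = 1 :=
  ⟨Matrix.mem_unitaryGroup_iff'.1 hu, Matrix.mem_unitaryGroup_iff.1 hu⟩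

lemma det_one_add {u : Matrix ι ι ℂ} (hu : u ∈ Matrix.unitaryGroup ι ℂ)
    (hpd : (u + uᴴ).PosDef) : (1 + u).det ≠ 0 := by
  intro h
  obtain ⟨v, hv, hv0⟩ := Matrix.exists_mulVec_eq_zero_iff.2 h
  have h1 : u *ᵥ v = -v := by
    rw [Matrix.add_mulVec, Matrix.one_mulVec] at hv0
    exact (neg_eq_of_add_eq_zero_right hv0).symm
  have h2 : uᴴ *ᵥ v = -v := by
    have h3 : uᴴ *ᵥ (u *ᵥ v) = v := by
      rw [Matrix.mulVec_mulVec, (conj_unitary hu).1, Matrix.one_mulVec]
    rw [h1, Matrix.mulVec_neg] at h3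
    exact neg_eq_iff_eq_neg.1 h3
  have h3 := hpd.re_dotProduct_pos hv
  rw [Matrix.add_mulVec, h1, h2, dotProduct_add, dotProduct_neg] at h3
  have h4 : 0 ≤ RCLike.re (star v ⬝ᵥ v) := by
    have h5 : (0 : ℂ) ≤ star v ⬝ᵥ v := dotProduct_star_self_nonneg v
    exact (Complex.le_def.1 h5).1
  simp only [map_add, map_neg] at h3
  linarith

/-- **The diagonalisation of a unitary matrix with eigenvalues in the right half-plane.** -/
theorem unitary_diag {u : Matrix ι ι ℂ} (hu : u ∈ Matrix.unitaryGroup ι ℂ)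
    (hpd : (u + uᴴ).PosDef) : ∃ W ∈ Matrix.unitaryGroup ι ℂ, ∃ l : ι → ℂ,
      u = W * diagonal l * star W ∧ ∀ j, ‖l j‖ = 1 ∧ 0 < (l j).re := by
  obtain ⟨hu1, hu2⟩ := conj_unitary hu
  have hdet := det_one_add hu hpd
  have hunit := isUnit_iff_ne_zero.2 hdet
  set Z := (1 - u) * (1 + u)⁻¹ with hZ
  have hZu : Z * (1 + u) = 1 - u := by
    rw [hZ, Matrix.mul_assoc, Matrix.nonsing_inv_mul _ hunit, Matrix.mul_one]
  have hZh : Zᴴ = -Z := by
    have h1 : (1 + u)ᴴ * Zᴴ = (1 - u)ᴴ := by
      rw [← Matrix.conjTranspose_mul, hZu]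
    have h2 : (1 + u)ᴴ * (-Z) * (1 + u) = (1 - u)ᴴ * (1 + u) := by
      rw [Matrix.mul_assoc, Matrix.neg_mul, hZu, Matrix.conjTranspose_add,
        Matrix.conjTranspose_sub, Matrix.conjTranspose_one, Matrix.mul_neg, Matrix.add_mul,
        Matrix.sub_mul, Matrix.one_mul, Matrix.mul_sub, Matrix.one_mul, Matrix.mul_one,
        Matrix.mul_add, Matrix.mul_one, hu1]
      abel
    have h3 : (1 + u)ᴴ * (-Z) = (1 - u)ᴴ := by
      have h4 := congrArg (fun M => M * (1 + u)⁻¹) h2
      simp only [Matrix.mul_assoc, Matrix.mul_nonsing_inv _ hunit, Matrix.mul_one] at h4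
      exact h4
    have h5 : ((1 + u)ᴴ).det ≠ 0 := by
      rw [Matrix.det_conjTranspose]
      exact star_ne_zero.2 hdet
    have h6 := congrArg (fun M => ((1 + u)ᴴ)⁻¹ * M) (h1.trans h3.symm)
    simp only [← Matrix.mul_assoc, Matrix.nonsing_inv_mul _ (isUnit_iff_ne_zero.2 h5),
      Matrix.one_mul] at h6
    exact h6
  have hA : (Complex.I • Z).IsHermitian := by
    change (Complex.I • Z)ᴴ = _
    rw [Matrix.conjTranspose_smul, hZh, smul_neg, Complex.star_def, Complex.conj_I, neg_smul,
      neg_neg]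
  obtain ⟨W, hW, hspec⟩ := spec hA
  set α := hA.eigenvalues
  have hWW : star W * W = 1 := Matrix.mem_unitaryGroup_iff'.1 hW
  have hWW' : W * star W = 1 := Matrix.mem_unitaryGroup_iff.1 hW
  -- the matrix of `u` in the new basis
  set D := star W * u * W with hD
  have hZW : star W * Z * W = diagonal fun i => -Complex.I * (α i : ℂ) := by
    have h1 : Z = (-Complex.I) • (Complex.I • Z) := by
      rw [smul_smul, neg_mul, Complex.I_mul_I, neg_neg, one_smul]
    rw [h1, hspec, Matrix.mul_smul, Matrix.smul_mul]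
    have h2 : star W * (W * diagonal (fun i => (α i : ℂ)) * star W) * W =
        diagonal fun i => (α i : ℂ) := by
      calc star W * (W * diagonal (fun i => (α i : ℂ)) * star W) * W
          = (star W * W) * diagonal (fun i => (α i : ℂ)) * (star W * W) := by
            simp only [Matrix.mul_assoc]
        _ = _ := by rw [hWW, Matrix.one_mul, Matrix.mul_one]
    rw [h2]
    ext i j
    by_cases h : i = j
    · subst h
      simp
    · simp [Matrix.diagonal_apply_ne _ h]
  have hrel : (1 + diagonal (fun i => -Complex.I * (α i : ℂ))) * D =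
      1 - diagonal (fun i => -Complex.I * (α i : ℂ)) := by
    have h1 : (1 + Z) * u = 1 - Z := by
      rw [Matrix.mul_add, Matrix.mul_one] at hZu
      rw [Matrix.add_mul, Matrix.one_mul, eq_sub_iff_add_eq, add_assoc, add_comm (Z * u), hZu]
      abel
    rw [← hZW, hD]
    calc (1 + star W * Z * W) * (star W * u * W)
        = (star W * W + star W * Z * W) * (star W * u * W) := by rw [hWW]
      _ = star W * ((1 + Z) * (W * star W) * u) * W := by
          simp only [Matrix.mul_add, Matrix.add_mul, Matrix.mul_assoc, Matrix.one_mul]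
      _ = star W * (1 - Z) * W := by
          rw [hWW', Matrix.mul_one, h1]
      _ = star W * W - star W * Z * W := by
          simp only [Matrix.mul_sub, Matrix.sub_mul, Matrix.mul_one]
      _ = _ := by rw [hWW]
  have hne : ∀ i, (1 : ℂ) - Complex.I * (α i : ℂ) ≠ 0 := by
    intro i h
    have h1 := congrArg Complex.re h
    simp at h1
  let l : ι → ℂ := fun i => (1 + Complex.I * (α i : ℂ)) / (1 - Complex.I * (α i : ℂ))
  have hDl : D = diagonal l := by
    ext i j
    have h1 := congrFun (congrFun hrel i) j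
    have h2 : ∀ c : ι → ℂ, (1 : Matrix ι ι ℂ) + diagonal c = diagonal fun i => 1 + c i := by
      intro c
      rw [← Matrix.diagonal_one, Matrix.diagonal_add]
    have h3 : ∀ c : ι → ℂ, (1 : Matrix ι ι ℂ) - diagonal c = diagonal fun i => 1 - c i := by
      intro c
      rw [← Matrix.diagonal_one, Matrix.diagonal_sub]
    rw [h2, h3, Matrix.diagonal_mul] at h1
    by_cases h : i = j
    · subst h
      rw [Matrix.diagonal_apply_eq] at h1 ⊢
      change D i i = (1 + Complex.I * (α i : ℂ)) / (1 - Complex.I * (α i : ℂ))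
      rw [eq_div_iff (hne i), mul_comm]
      linear_combination h1
    · rw [Matrix.diagonal_apply_ne _ h] at h1 ⊢
      rcases mul_eq_zero.1 h1 with h4 | h4
      · exact absurd (by linear_combination h4) (hne i)
      · exact h4
  have huD : u = W * diagonal l * star W := by
    rw [← hDl, hD]
    calc u = (W * star W) * u * (W * star W) := by rw [hWW', Matrix.one_mul, Matrix.mul_one]
      _ = _ := by simp only [Matrix.mul_assoc]
  refine ⟨W, hW, l, huD, fun j => ?_⟩
  have hDD : Dᴴ * D = 1 := by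
    rw [hD, Matrix.conjTranspose_mul, Matrix.conjTranspose_mul,
      ← Matrix.star_eq_conjTranspose (star W), star_star, ← Matrix.star_eq_conjTranspose W]
    calc star W * (uᴴ * W) * (star W * u * W) = star W * (uᴴ * (W * star W) * u) * W := by
          simp only [Matrix.mul_assoc]
      _ = 1 := by rw [hWW', Matrix.mul_one, hu1, Matrix.mul_one, hWW]
  have h1 : (starRingEnd ℂ) (l j) * l j = 1 := by
    have h2 := congrFun (congrFun hDD j) j
    rw [hDl, Matrix.diagonal_conjTranspose, Matrix.diagonal_mul_diagonal,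
      Matrix.diagonal_apply_eq, Matrix.one_apply_eq] at h2
    exact h2
  have hnorm : ‖l j‖ = 1 := by
    rw [mul_comm, Complex.mul_conj, Complex.normSq_eq_norm_sq] at h1
    have h3 : ‖l j‖ ^ 2 = 1 := by exact_mod_cast h1
    nlinarith [norm_nonneg (l j)]
  refine ⟨hnorm, ?_⟩
  -- the eigenvector
  have hv0 : (W *ᵥ Pi.single j 1) ≠ 0 := by
    intro h0
    have h2 : star W *ᵥ (W *ᵥ Pi.single j 1) = (Pi.single j 1 : ι → ℂ) := by
      rw [Matrix.mulVec_mulVec, hWW, Matrix.one_mulVec]
    rw [h0, Matrix.mulVec_zero] at h2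
    have h3 := congrFun h2 j
    rw [Pi.single_eq_same] at h3
    exact zero_ne_one h3
  have h2 := hpd.re_dotProduct_pos hv0
  have h3 : star (W *ᵥ Pi.single j (1 : ℂ)) ⬝ᵥ ((u + uᴴ) *ᵥ (W *ᵥ Pi.single j 1)) =
      l j + (starRingEnd ℂ) (l j) := by
    have h4 : star W * (u + uᴴ) * W = diagonal fun i => l i + (starRingEnd ℂ) (l i) := by
      have h5 : star W * uᴴ * W = (star W * u * W)ᴴ := by
        rw [Matrix.conjTranspose_mul, Matrix.conjTranspose_mul,
          ← Matrix.star_eq_conjTranspose (star W), star_star, ← Matrix.star_eq_conjTranspose W]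
        simp only [Matrix.mul_assoc]
      have h6 : star W * u * W = diagonal l := hDl
      rw [Matrix.mul_add, Matrix.add_mul, h5, h6, Matrix.diagonal_conjTranspose,
        Matrix.diagonal_add]
      rfl
    rw [Matrix.star_mulVec, ← Matrix.dotProduct_mulVec, Matrix.mulVec_mulVec,
      Matrix.mulVec_mulVec, ← Matrix.star_eq_conjTranspose, h4]
    simp
  rw [h3] at h2
  simp at h2
  linarith

/-- **The trace of a unitary matrix with an eigenvalue in the left half-plane.** -/
theorem trace_bad {u : Matrix ι ι ℂ} (hu : u ∈ Matrix.unitaryGroup ι ℂ)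
    (hpd : ¬ (u + uᴴ).PosDef) : u.trace.re ≤ Fintype.card ι - 1 := by
  have hH : (u + uᴴ).IsHermitian := by
    change (u + uᴴ)ᴴ = _
    rw [Matrix.conjTranspose_add, Matrix.conjTranspose_conjTranspose, add_comm]
  rw [hH.posDef_iff_eigenvalues_pos] at hpd
  push Not at hpd
  obtain ⟨i0, hi0⟩ := hpd
  have h2 : ∀ i, hH.eigenvalues i ≤ 2 := by
    intro i
    have h1 := hH.eigenvalues_eq i
    set v := ⇑(hH.eigenvectorBasis i) with hv
    have h3 := (Matrix.posSemidef_conjTranspose_mul_self (1 - u)).re_dotProduct_nonneg v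
    have h4 : (1 - u)ᴴ * (1 - u) = (1 + 1) - (u + uᴴ) := by
      rw [Matrix.conjTranspose_sub, Matrix.conjTranspose_one, Matrix.sub_mul, Matrix.one_mul,
        Matrix.mul_sub, Matrix.mul_one, (conj_unitary hu).1]
      abel
    have h5 : star v ⬝ᵥ v = 1 := by
      have h6 := (hH.eigenvectorBasis.orthonormal.1 i)
      have h7 := EuclideanSpace.inner_eq_star_dotProduct (𝕜 := ℂ) (hH.eigenvectorBasis i)
        (hH.eigenvectorBasis i)
      rw [inner_self_eq_norm_sq_to_K, h6] at h7
      rw [dotProduct_comm]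
      rw [hv]
      exact h7.symm.trans (by norm_num)
    rw [h4, Matrix.sub_mulVec, Matrix.add_mulVec, Matrix.one_mulVec, dotProduct_sub,
      dotProduct_add, h5, map_sub, ← h1] at h3
    have h6 : (RCLike.re ((1 : ℂ) + 1) : ℝ) = 2 := by
      simp
      norm_num
    rw [h6] at h3
    linarith
  have h3 := hH.trace_eq_sum_eigenvalues
  have h4 : (u + uᴴ).trace.re = 2 * u.trace.re := by
    rw [Matrix.trace_add, Matrix.trace_conjTranspose, Complex.add_re]
    change u.trace.re + (starRingEnd ℂ u.trace).re = _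
    rw [Complex.conj_re]
    ring
  have h5 : (u + uᴴ).trace.re = ∑ i, hH.eigenvalues i := by
    rw [h3]
    rw [Complex.re_sum]
    rfl
  have h6 : ∑ i, hH.eigenvalues i ≤ 2 * ((Fintype.card ι : ℝ) - 1) := by
    rw [← Finset.add_sum_erase _ _ (Finset.mem_univ i0)]
    have h7 : ∑ i ∈ Finset.univ.erase i0, hH.eigenvalues i ≤
        ∑ _i ∈ Finset.univ.erase i0, (2 : ℝ) := Finset.sum_le_sum fun i _ => h2 i
    rw [Finset.sum_const, Finset.card_erase_of_mem (Finset.mem_univ _), Finset.card_univ,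
      nsmul_eq_mul] at h7
    have h8 : ((Fintype.card ι - 1 : ℕ) : ℝ) = (Fintype.card ι : ℝ) - 1 := by
      have : 1 ≤ Fintype.card ι := Fintype.card_pos_iff.2 ⟨i0⟩
      push_cast [this]
      ring
    rw [h8] at h7
    linarith
  linarith

lemma neg_card_le_trace {u : Matrix ι ι ℂ} (hu : u ∈ Matrix.unitaryGroup ι ℂ) :
    -(Fintype.card ι : ℝ) ≤ u.trace.re := by
  have h1 : ‖u.trace‖ ≤ Fintype.card ι := by
    rw [Matrix.trace]
    refine (norm_sum_le _ _).trans ?_
    calc ∑ i, ‖u.diag i‖ ≤ ∑ _i : ι, (1 : ℝ) :=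
          Finset.sum_le_sum fun i _ => entry_norm_bound_of_unitary hu i i
      _ = Fintype.card ι := by simp
  have h2 := Complex.abs_re_le_norm u.trace
  have h3 := neg_abs_le u.trace.re
  linarith

end Pool.Agent.Q60.PB
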