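import Pool.Agent.Q60.PB.Cpt
import Pool.Agent.Q60.PB.Num
import Pool.Agent.Q60.PB.Uni
import Pool.Agent.Q60.FI.Hdg

/-!
# Closed systems of Hodge tensors which contain all Hodge tensors of degree at most `b ^ 3`

Let `V` be a polarised Hodge structure of dimension `b` all of whose central skew endomorphisms are
zero. A closed system of Hodge tensors which contains all Hodge tensors of degree at most `b ^ 3`
contains all Hodge tensors.
-/

set_option linter.unusedSectionVars false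

namespace Pool.Agent.Q60.PB

open Module Matrix Pool.Agent.Q60.ED Pool.Agent.Q60.NP Pool.Agent.Q60.TD Pool.Agent.Q60.FI

open scoped ComplexOrder

variable {ι : Type} [Fintype ι] [DecidableEq ι]

lemma aop_diagonal (e : ι → ℂ) {n : ℕ} (t : (Fin n → ι) → ℂ) :
    aop (diagonal e) t = fun w => (∑ k, e (w k)) * t w := by
  funext w
  rw [aop_apply, Finset.sum_mul]
  refine Finset.sum_congr rfl fun k _ => ?_
  rw [Finset.sum_eq_single (w k)]
  · rw [Matrix.diagonal_apply_eq, Function.update_eq_self]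
  · intro j _ hj
    rw [Matrix.diagonal_apply_ne _ (Ne.symm hj), zero_mul]
  · intro h
    exact absurd (Finset.mem_univ _) h

lemma aop_dm_iff {S0 : Matrix ι ι ℂ} (h0 : S0.det ≠ 0) (e : ι → ℂ) {n : ℕ}
    (t : (Fin n → ι) → ℂ) : aop (dm S0 e) t = 0 ↔
      ∀ w, tpow S0⁻¹ n t w ≠ 0 → ∑ k, e (w k) = 0 := by
  have h1 : S0⁻¹ * S0 = 1 := Matrix.nonsing_inv_mul _ (isUnit_iff_ne_zero.2 h0)
  have h2 : S0 * S0⁻¹ = 1 := Matrix.mul_nonsing_inv _ (isUnit_iff_ne_zero.2 h0)
  have h3 : S0⁻¹ * dm S0 e = diagonal e * S0⁻¹ := by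
    rw [dm, Matrix.mul_assoc, ← Matrix.mul_assoc, h1, Matrix.one_mul]
  have h4 := tpow_aop h3 (n := n) t
  rw [aop_diagonal] at h4
  constructor
  · intro h w hw
    rw [h, map_zero] at h4
    have h5 := congrFun h4 w
    rcases mul_eq_zero.1 h5.symm with h6 | h6
    · exact h6
    · exact absurd h6 hw
  · intro h
    have h5 : tpow S0⁻¹ n (aop (dm S0 e) t) = 0 := by
      rw [h4]
      funext w
      by_cases hw : tpow S0⁻¹ n t w = 0
      · rw [hw, mul_zero]
        rfl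
      · rw [h w hw, zero_mul]
        rfl
    have h6 := congrArg (tpow S0 n) h5
    rw [← tpow_mul, h2, tpow_one, map_zero] at h6
    exact h6

/-- **The elements with eigenvalues in the right half-plane.** -/
theorem good (V : PHS ι) {S : ∀ n : ℕ, Submodule ℚ ((Fin n → ι) → ℚ)}
    (h4 : ∀ m ≤ 4, V.T m ≤ S m)
    (key : ∀ X : Matrix ι ι ℚ, (∀ m ≤ 4, ∀ s ∈ V.T m, aop X s = 0) → Lie V.T X)
    {B : Matrix ι ι ℂ} (hB : B.det ≠ 0) {x : Matrix ι ι ℂ} (hx : FixR S x)
    (hu : B * x * B⁻¹ ∈ Matrix.unitaryGroup ι ℂ)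
    (hpd : (B * x * B⁻¹ + (B * x * B⁻¹)ᴴ).PosDef) : FixR V.T x := by
  have hBu := isUnit_iff_ne_zero.2 hB
  have hBB : B * B⁻¹ = 1 := Matrix.mul_nonsing_inv _ hBu
  have hBB' : B⁻¹ * B = 1 := Matrix.nonsing_inv_mul _ hBu
  obtain ⟨W, hW, l, hl, hlp⟩ := unitary_diag hu hpd
  have hWW : star W * W = 1 := Matrix.mem_unitaryGroup_iff'.1 hW
  set S0 := B⁻¹ * W with hS0
  have hS0i : S0⁻¹ = star W * B := by
    apply Matrix.inv_eq_left_inv
    calc star W * B * (B⁻¹ * W) = star W * (B * B⁻¹) * W := by simp only [Matrix.mul_assoc]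
      _ = 1 := by rw [hBB, Matrix.mul_one, hWW]
  have hS0d : S0.det ≠ 0 := by
    intro h
    have h1 : (star W * B * S0).det = 1 := by
      rw [hS0, Matrix.mul_assoc, ← Matrix.mul_assoc B, hBB, Matrix.one_mul, hWW, Matrix.det_one]
    rw [Matrix.det_mul, h, mul_zero] at h1
    exact zero_ne_one h1
  have hxd : x = dm S0 l := by
    rw [dm, hS0i, hS0]
    calc x = (B⁻¹ * B) * x * (B⁻¹ * B) := by rw [hBB', Matrix.one_mul, Matrix.mul_one]
      _ = B⁻¹ * (B * x * B⁻¹) * B := by simp only [Matrix.mul_assoc]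
      _ = B⁻¹ * W * diagonal l * (star W * B) := by
          rw [hl]
          simp only [Matrix.mul_assoc]
  -- the arguments of the eigenvalues
  set θ : ι → ℝ := fun j => Complex.arg (l j) with hθ
  have hθl : ∀ j, l j = Complex.exp (θ j * Complex.I) := by
    intro j
    have h1 := Complex.norm_mul_exp_arg_mul_I (l j)
    rw [(hlp j).1, Complex.ofReal_one, one_mul] at h1
    exact h1.symm
  have hθp : ∀ j, |θ j| < Real.pi / 2 := fun j =>
    Complex.abs_arg_lt_pi_div_two_iff.2 (Or.inl (hlp j).2)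
  have hprod : ∀ {n : ℕ} (w : Fin n → ι), ∏ k, l (w k) =
      Complex.exp (((∑ k, θ (w k) : ℝ) : ℂ) * Complex.I) := by
    intro n w
    rw [Complex.ofReal_sum, Finset.sum_mul, Complex.exp_sum]
    exact Finset.prod_congr rfl fun k _ => hθl (w k)
  -- the logarithm kills the tensors of degree at most four
  have hkill : ∀ m ≤ 4, ∀ s ∈ V.T m, aop (dm S0 fun j => (θ j : ℂ) * Complex.I) (cx s) = 0 := by
    intro m hm s hs
    rw [aop_dm_iff hS0d]
    intro w hw
    have h1 := hx m s (h4 m hm hs)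
    rw [hxd, dm_fix_iff hS0d] at h1
    have h2 := h1 w hw
    rw [hprod, Complex.exp_eq_one_iff] at h2
    obtain ⟨z, hz⟩ := h2
    have h3 : ∑ k, θ (w k) = z * (2 * Real.pi) := by
      have h5 : (((∑ k, θ (w k) : ℝ) : ℂ)) * Complex.I = ((z * (2 * Real.pi) : ℝ) : ℂ) *
          Complex.I := by
        rw [hz]
        push_cast
        ring
      have h6 := mul_right_cancel₀ Complex.I_ne_zero h5
      exact_mod_cast h6
    have h5 : |∑ k, θ (w k)| < 2 * Real.pi := by
      rcases Nat.eq_zero_or_pos m with h0 | h0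
      · subst h0
        simp [Real.pi_pos]
      · calc |∑ k, θ (w k)| ≤ ∑ k, |θ (w k)| := Finset.abs_sum_le_sum_abs _ _
          _ < ∑ _k : Fin m, Real.pi / 2 := by
              apply Finset.sum_lt_sum_of_nonempty
              · exact ⟨⟨0, h0⟩, Finset.mem_univ _⟩
              · intro k _
                exact hθp _
          _ = m * (Real.pi / 2) := by simp
          _ ≤ 4 * (Real.pi / 2) := by
              have : (m : ℝ) ≤ 4 := by exact_mod_cast hm
              have := Real.pi_pos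
              nlinarith
          _ = 2 * Real.pi := by ring
    have h6 : z = 0 := by
      rw [h3, abs_mul, abs_of_pos (by positivity : (0 : ℝ) < 2 * Real.pi)] at h5
      have h7 : |(z : ℝ)| < 1 := by
        by_contra hcon
        push Not at hcon
        have := Real.pi_pos
        nlinarith
      rw [← Int.cast_abs] at h7
      have h8 : |z| < 1 := by exact_mod_cast h7
      exact Int.abs_lt_one_iff.1 h8
    rw [h6] at h3
    have h7 : ∑ k, (θ (w k) : ℂ) * Complex.I = ((∑ k, θ (w k) : ℝ) : ℂ) * Complex.I := by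
      rw [Complex.ofReal_sum, Finset.sum_mul]
    rw [h7, h3]
    simp
  -- so it kills all Hodge tensors
  have hkill' : ∀ n, ∀ t ∈ V.T n, aop (dm S0 fun j => (θ j : ℂ) * Complex.I) (cx t) = 0 := by
    intro n t ht
    funext I
    apply eq_zero_of_forms (K := ℚ)
    intro f
    have h1 : Lie V.T (Matrix.of fun i j => f ((dm S0 fun j => (θ j : ℂ) * Complex.I) i j)) := by
      apply key
      intro m hm s hs
      funext J
      rw [← aop_form, ← PH.cx_eq_bc, hkill m hm s hs, Pi.zero_apply, map_zero]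
      rfl
    rw [PH.cx_eq_bc, aop_form, h1 n t ht]
    rfl
  intro n t ht
  rw [hxd, dm_fix_iff hS0d]
  intro w hw
  have h1 := (aop_dm_iff hS0d _ _).1 (hkill' n t ht) w hw
  have h2 : ((∑ k, θ (w k) : ℝ) : ℂ) * Complex.I = 0 := by
    rw [Complex.ofReal_sum, Finset.sum_mul]
    exact h1
  rw [hprod, h2, Complex.exp_zero]

section form

variable (V : PHS ι) {S : ∀ n : ℕ, Submodule ℚ ((Fin n → ι) → ℚ)} (hOm : PHS.Om V.Q ∈ S 2)

include hOm

lemma fixR_form {g : Matrix ι ι ℂ} (hg : FixR S g) :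
    g * (qc V.Q)⁻¹ * g.transpose = (qc V.Q)⁻¹ := by
  have h1 := tpow_two g (cx (PHS.Om V.Q))
  rw [hg 2 _ hOm] at h1
  rw [PHS.mat2_Om, qc_inv PHS.qc_det] at h1
  exact h1.symm

lemma fixR_det {g : Matrix ι ι ℂ} (hg : FixR S g) : g.det ≠ 0 := by
  intro h
  have h1 := congrArg Matrix.det (fixR_form V hOm hg)
  rw [Matrix.det_mul, Matrix.det_mul, h, zero_mul, zero_mul, Matrix.det_nonsing_inv,
    Ring.inverse_eq_inv'] at h1
  exact inv_ne_zero PHS.qc_det h1.symm

lemma fixR_conj {g : Matrix ι ι ℂ} (hg : FixR S g) : FixR S (g.map (starRingEnd ℂ)) := by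
  intro n t ht
  have h1 : cx t = fun I => (starRingEnd ℂ) (cx t I) := by
    funext I
    simp [cx]
  have h2 := PHS.tpow_map (starRingEnd ℂ) g (cx t)
  rw [hg n t ht] at h2
  conv_lhs => rw [h1]
  refine h2.trans ?_
  exact h1.symm

/-- The inverse and the transposed matrix. -/
lemma fixR_inv {g : Matrix ι ι ℂ} (hg : FixR S g) :
    g⁻¹ = (qc V.Q)⁻¹ * g.transpose * qc V.Q := by
  have hd := fixR_det V hOm hg
  have h1 := fixR_form V hOm hg
  have h2 : (qc V.Q)⁻¹ * qc V.Q = 1 :=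
    Matrix.nonsing_inv_mul _ (isUnit_iff_ne_zero.2 PHS.qc_det)
  apply Matrix.inv_eq_right_inv
  calc g * ((qc V.Q)⁻¹ * g.transpose * qc V.Q) = (g * (qc V.Q)⁻¹ * g.transpose) * qc V.Q := by
        simp only [Matrix.mul_assoc]
    _ = 1 := by rw [h1, h2]

lemma fixR_trace {g : Matrix ι ι ℂ} (hg : FixR S g) : g⁻¹.trace = g.trace := by
  have h2 : qc V.Q * (qc V.Q)⁻¹ = 1 :=
    Matrix.mul_nonsing_inv _ (isUnit_iff_ne_zero.2 PHS.qc_det)
  rw [fixR_inv V hOm hg, Matrix.trace_mul_comm, ← Matrix.mul_assoc, h2, Matrix.one_mul,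
    Matrix.trace_transpose]

lemma trace_im {B : Matrix ι ι ℂ} (hB : B.det ≠ 0) {x : Matrix ι ι ℂ} (hx : FixR S x)
    (hu : B * x * B⁻¹ ∈ Matrix.unitaryGroup ι ℂ) : (B * x * B⁻¹).trace.im = 0 := by
  have hBB' : B⁻¹ * B = 1 := Matrix.nonsing_inv_mul _ (isUnit_iff_ne_zero.2 hB)
  have h1 : (B * x * B⁻¹).trace = x.trace := by
    rw [Matrix.trace_mul_comm, ← Matrix.mul_assoc, hBB', Matrix.one_mul]
  have h2 : (B * x * B⁻¹)ᴴ = B * x⁻¹ * B⁻¹ := by
    have h3 := (conj_unitary hu).1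
    have h4 : (B * x * B⁻¹) * (B * x⁻¹ * B⁻¹) = 1 := by
      have h5 : x * x⁻¹ = 1 := Matrix.mul_nonsing_inv _
        (isUnit_iff_ne_zero.2 (fixR_det V hOm hx))
      calc (B * x * B⁻¹) * (B * x⁻¹ * B⁻¹) = B * x * (B⁻¹ * B) * x⁻¹ * B⁻¹ := by
            simp only [Matrix.mul_assoc]
        _ = B * (x * x⁻¹) * B⁻¹ := by
            rw [hBB', Matrix.mul_one]
            simp only [Matrix.mul_assoc]
        _ = 1 := by
            rw [h5, Matrix.mul_one, Matrix.mul_nonsing_inv _ (isUnit_iff_ne_zero.2 hB)]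
    calc (B * x * B⁻¹)ᴴ = (B * x * B⁻¹)ᴴ * ((B * x * B⁻¹) * (B * x⁻¹ * B⁻¹)) := by
          rw [h4, Matrix.mul_one]
      _ = _ := by rw [← Matrix.mul_assoc, h3, Matrix.one_mul]
  have h3 : (starRingEnd ℂ) (B * x * B⁻¹).trace = (B * x * B⁻¹).trace := by
    have h4 := Matrix.trace_conjTranspose (B * x * B⁻¹)
    rw [h2, Matrix.trace_mul_comm, ← Matrix.mul_assoc, hBB', Matrix.one_mul,
      fixR_trace V hOm hx, ← h1] at h4
    exact h4.symm
  have h4 := congrArg Complex.im h3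
  rw [Complex.conj_im] at h4
  linarith

/-- The stabiliser is stable under the adjoint. -/
lemma adj_fix (hS : ∀ n, S n ≤ V.T n) {B : Matrix ι ι ℂ} (hB : B.det ≠ 0)
    (hgram : qc V.Q * V.c Complex.I = Bᴴ * B) {g : Matrix ι ι ℂ} (hg : FixR S g) :
    FixR S (adj B g) := by
  have hc : FixR S (V.c Complex.I) := fun n t ht => hS n ht _ Complex.I_ne_zero
  have hcd : (V.c Complex.I).det ≠ 0 := PHS.c_det Complex.I_ne_zero
  have hgc := fixR_conj V hOm hg
  have hgcd := fixR_det V hOm hgc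
  have h1 := fixR_inv V hOm hgc
  have h2 : (g.map (starRingEnd ℂ)).transpose = gᴴ := rfl
  rw [h2] at h1
  have hBu := isUnit_iff_ne_zero.2 hB
  have hBB : B * B⁻¹ = 1 := Matrix.mul_nonsing_inv _ hBu
  have hBB' : B⁻¹ * B = 1 := Matrix.nonsing_inv_mul _ hBu
  have h3 : (Bᴴ * B)⁻¹ = (V.c Complex.I)⁻¹ * (qc V.Q)⁻¹ := by
    rw [← hgram, Matrix.mul_inv_rev]
  have h4 : (Bᴴ * B)⁻¹ = B⁻¹ * (B⁻¹)ᴴ := by
    rw [Matrix.mul_inv_rev, Matrix.conjTranspose_nonsing_inv]
  have h5 : adj B g = (V.c Complex.I)⁻¹ * (g.map (starRingEnd ℂ))⁻¹ * V.c Complex.I := by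
    calc adj B g = (B⁻¹ * (B⁻¹)ᴴ) * gᴴ * (Bᴴ * B) := by
          rw [adj, Matrix.conjTranspose_mul, Matrix.conjTranspose_mul]
          simp only [Matrix.mul_assoc]
      _ = (V.c Complex.I)⁻¹ * (qc V.Q)⁻¹ * gᴴ * (qc V.Q * V.c Complex.I) := by
          rw [← h4, h3, hgram]
      _ = (V.c Complex.I)⁻¹ * ((qc V.Q)⁻¹ * gᴴ * qc V.Q) * V.c Complex.I := by
          simp only [Matrix.mul_assoc]
      _ = _ := by rw [h1]
  rw [h5]
  exact ((hc.inv hcd).mul (hgc.inv hgcd)).mul hc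

end form

/-- **A closed system of Hodge tensors which contains the tensors of degree at most `b ^ 3`.** -/
theorem poly_bound (V : PHS ι) (C C' : PSys V.Q) (hC : ∀ n, C.S n ≤ V.T n)
    (hC' : ∀ n, C'.S n = V.T n) (hb : 2 ≤ Fintype.card ι)
    (h : ∀ n ≤ Fintype.card ι ^ 3, V.T n ≤ C.S n)
    (hcen : ∀ c : Matrix ι ι ℚ, tv V.Q c ∈ V.T 2 → (∀ a, tv V.Q a ∈ V.T 2 → a * c = c * a) →
      (∀ s ∈ V.T 2, aop c s = 0) → c = 0) (n : ℕ) : V.T n ≤ C.S n := by
  have hb3 : 8 ≤ Fintype.card ι ^ 3 := by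
    calc 8 = 2 ^ 3 := by norm_num
      _ ≤ _ := Nat.pow_le_pow_left hb 3
  have h2 := h 2 (by omega)
  have h4 := h 4 (by omega)
  have hQ := PHS.det_Q (V := V)
  have hle : ∀ n, (toC C).S n ≤ (toC C').S n := fun n => by
    change C.S n ≤ C'.S n
    rw [hC' n]
    exact hC n
  have hS' : (toC C').S = V.T := funext hC'
  have hnd : ∀ n, ∀ v ∈ V.T n, (∀ w ∈ V.T n, bf (TP V.Q n) v w = 0) → v = 0 :=
    fun n v hv h => PHS.pos_T hv (h v hv)
  have h2C : (toC C).S 2 = V.T 2 := le_antisymm (hC 2) h2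
  obtain ⟨P, hP, hP1, hP2⟩ := exists_P hQ (C' := toC C') (by rw [hS']; exact hnd)
  have key : ∀ x : Matrix ι ι ℚ, (∀ m ≤ 4, ∀ s ∈ V.T m, aop x s = 0) → Lie V.T x := by
    intro x hx
    have h1 := lie_eq hQ hle (by rw [hS']; exact h2) (by rw [hS']; exact h4) hP hP1 hP2
      (fun c hc _ => by
        rw [hS'] at hc ⊢
        exact PH.tv_mem V hc) (by rw [h2C]; exact hcen) (x := x)
      (fun m hm s hs => hx m hm s (hC m hs))
    rwa [hS'] at h1
  obtain ⟨T, hT⟩ := C.exists_tsys hC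
  obtain ⟨T', hT'⟩ := C'.exists_tsys (fun n => (hC' n).le)
  have hT'' : ∀ n, T'.S n = V.T n := fun n => by rw [hT', hC']
  obtain ⟨B, hB, hgram⟩ := V.gram
  have hBu := isUnit_iff_ne_zero.2 hB
  have hBB : B * B⁻¹ = 1 := Matrix.mul_nonsing_inv _ hBu
  have hBB' : B⁻¹ * B = 1 := Matrix.nonsing_inv_mul _ hBu
  have hOmC : PHS.Om V.Q ∈ C.S 2 := C.cas
  have hOmT : PHS.Om V.Q ∈ V.T 2 := hC 2 hOmC
  have hdet : (mat2 (cx (PHS.Om V.Q))).det ≠ 0 := by
    rw [PHS.mat2_Om, qc_inv PHS.qc_det]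
    intro h0
    have h1 := congrArg Matrix.det
      (Matrix.mul_nonsing_inv (qc V.Q) (isUnit_iff_ne_zero.2 (PHS.qc_det (V := V))))
    rw [Matrix.det_mul, h0, mul_zero, Matrix.det_one] at h1
    exact zero_ne_one h1
  -- fixed by the unitary elements of the stabiliser of the Hodge tensors
  have hdual : ∀ {j : ℕ} {τ : (Fin j → ι) → ℂ}, (∀ x, FixR V.T x →
      B * x * B⁻¹ ∈ Matrix.unitaryGroup ι ℂ → tpow x j τ = τ) → τ ∈ T'.cplx.S j := by
    intro j τ hτ
    refine T'.cplx.mem_of_fixed (Ω := cx (PHS.Om V.Q)) (TSys.mem_cplx (by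
      rw [hT'']; exact hOmT)) hdet fun g hg => ?_
    have hgR : FixR V.T g := fun n t ht => hg n _ (TSys.mem_cplx (by rw [hT'']; exact ht))
    exact polar hB hgR (fixR_det V hOmT hgR) (adj_fix V hOmT (fun _ => le_rfl) hB hgram hgR) hτ
  -- the compact group
  let K : Subgroup (Matrix.unitaryGroup ι ℂ) :=
    { carrier := {u | FixR V.T (B⁻¹ * (u : Matrix ι ι ℂ) * B)}
      one_mem' := by
        change FixR V.T (B⁻¹ * 1 * B)
        rw [Matrix.mul_one, hBB']
        exact fun n t _ => tpow_one _ _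
      mul_mem' := fun {a b} ha hb => by
        change FixR V.T (B⁻¹ * ((a : Matrix ι ι ℂ) * (b : Matrix ι ι ℂ)) * B)
        have h1 : B⁻¹ * ((a : Matrix ι ι ℂ) * (b : Matrix ι ι ℂ)) * B =
            (B⁻¹ * (a : Matrix ι ι ℂ) * B) * (B⁻¹ * (b : Matrix ι ι ℂ) * B) := by
          calc B⁻¹ * ((a : Matrix ι ι ℂ) * (b : Matrix ι ι ℂ)) * B
              = B⁻¹ * (a : Matrix ι ι ℂ) * 1 * (b : Matrix ι ι ℂ) * B := by
                rw [Matrix.mul_one]
                simp only [Matrix.mul_assoc]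
            _ = _ := by
                rw [← hBB]
                simp only [Matrix.mul_assoc]
        rw [h1]
        exact ha.mul hb
      inv_mem' := fun {a} ha => by
        change FixR V.T (B⁻¹ * ((a⁻¹ : Matrix.unitaryGroup ι ℂ) : Matrix ι ι ℂ) * B)
        have h1 : B⁻¹ * ((a⁻¹ : Matrix.unitaryGroup ι ℂ) : Matrix ι ι ℂ) * B =
            (B⁻¹ * (a : Matrix ι ι ℂ) * B)⁻¹ := by
          symm
          apply Matrix.inv_eq_left_inv
          have h2 : ((a⁻¹ : Matrix.unitaryGroup ι ℂ) : Matrix ι ι ℂ) * (a : Matrix ι ι ℂ) = 1 := by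
            have := congrArg Subtype.val (inv_mul_cancel a)
            exact this
          calc B⁻¹ * ((a⁻¹ : Matrix.unitaryGroup ι ℂ) : Matrix ι ι ℂ) * B *
              (B⁻¹ * (a : Matrix ι ι ℂ) * B)
              = B⁻¹ * ((a⁻¹ : Matrix.unitaryGroup ι ℂ) : Matrix ι ι ℂ) * (B * B⁻¹) *
                (a : Matrix ι ι ℂ) * B := by simp only [Matrix.mul_assoc]
            _ = B⁻¹ * (((a⁻¹ : Matrix.unitaryGroup ι ℂ) : Matrix ι ι ℂ) *
                (a : Matrix ι ι ℂ)) * B := by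
                rw [hBB, Matrix.mul_one]
                simp only [Matrix.mul_assoc]
            _ = 1 := by rw [h2, Matrix.mul_one, hBB']
        rw [h1]
        exact FixR.inv ha (fixR_det V hOmT ha) }
  have hKmem : ∀ u : Matrix.unitaryGroup ι ℂ, u ∈ K ↔
      FixR V.T (B⁻¹ * (u : Matrix ι ι ℂ) * B) := fun u => Iff.rfl
  have hKcl : IsClosed (K : Set (Matrix.unitaryGroup ι ℂ)) := by
    have h1 : (K : Set (Matrix.unitaryGroup ι ℂ)) = ⋂ (n : ℕ) (t : V.T n) (I : Fin n → ι),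
        {u : Matrix.unitaryGroup ι ℂ |
          tpow (B⁻¹ * (u : Matrix ι ι ℂ) * B) n (cx t.1) I = cx t.1 I} := by
      ext u
      simp only [Set.mem_iInter, Set.mem_ofPred_eq, SetLike.mem_coe]
      rw [hKmem]
      constructor
      · intro hu n t I
        rw [hu n t.1 t.2]
      · intro hu n t ht
        funext I
        exact hu n ⟨t, ht⟩ I
    rw [h1]
    refine isClosed_iInter fun n => isClosed_iInter fun t => isClosed_iInter fun I =>
      isClosed_eq ?_ continuous_const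
    simp only [tpow_apply]
    refine continuous_finsetSum _ fun J _ => Continuous.mul ?_ continuous_const
    refine continuous_finsetProd _ fun k _ => ?_
    exact ((continuous_const.matrix_mul continuous_subtype_val).matrix_mul
      continuous_const).matrix_elem _ _
  intro t ht
  rw [← hT]
  apply TSys.of_mem_cplx
  refine T.cplx.mem_of_fixed (Ω := cx (PHS.Om V.Q)) (TSys.mem_cplx (by rw [hT]; exact hOmC))
    hdet fun g hg => ?_
  have hgR : FixR C.S g := fun n t ht => hg n _ (TSys.mem_cplx (by rw [hT]; exact ht))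
  refine polar hB hgR (fixR_det V hOmC hgR) (adj_fix V hOmC hC hB hgram hgR) fun x hx hxU => ?_
  suffices hsuf : FixR V.T x from hsuf n t ht
  by_contra hbad
  obtain ⟨m, P, y, hy, hm, hPd, hPs, hlt⟩ := exists_poly (Fintype.card ι) hb
  set γ := B * x * B⁻¹ with hγ
  -- the elements of the coset
  have hcos : ∀ u : K, FixR C.S (B⁻¹ * (γ * mt K u) * B) ∧
      B * (B⁻¹ * (γ * mt K u) * B) * B⁻¹ = γ * mt K u ∧
      γ * mt K u ∈ Matrix.unitaryGroup ι ℂ ∧ ¬ FixR V.T (B⁻¹ * (γ * mt K u) * B) := by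
    intro u
    have e1 : B⁻¹ * (γ * mt K u) * B = x * (B⁻¹ * mt K u * B) := by
      calc B⁻¹ * (γ * mt K u) * B = (B⁻¹ * B) * x * (B⁻¹ * mt K u * B) := by
            rw [hγ]
            simp only [Matrix.mul_assoc]
        _ = _ := by rw [hBB', Matrix.one_mul]
    have hu : FixR V.T (B⁻¹ * mt K u * B) := u.2
    have huC : FixR C.S (B⁻¹ * mt K u * B) := fun n t ht => hu n t (hC n ht)
    refine ⟨by rw [e1]; exact hx.mul huC, ?_, ?_, ?_⟩
    · calc B * (B⁻¹ * (γ * mt K u) * B) * B⁻¹ = (B * B⁻¹) * (γ * mt K u) * (B * B⁻¹) := by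
            simp only [Matrix.mul_assoc]
        _ = _ := by rw [hBB, Matrix.one_mul, Matrix.mul_one]
    · exact Submonoid.mul_mem _ hxU u.1.2
    · rw [e1]
      intro hcon
      apply hbad
      have h1 := hcon.mul (hu.inv (fixR_det V hOmT hu))
      rw [Matrix.mul_assoc, Matrix.mul_nonsing_inv _
        (isUnit_iff_ne_zero.2 (fixR_det V hOmT hu)), Matrix.mul_one] at h1
      exact h1
  refine absurd (cpt_main K hKcl (m := m) (γ := γ) (P := P) ?_ ?_ ?_ hPd ?_ hy) (not_le.2 hlt)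
  · intro j hj τ hτ
    have h1 : tpow B⁻¹ j τ ∈ T'.cplx.S j := by
      refine hdual fun z hz hzU => ?_
      have h5 := hτ ⟨⟨B * z * B⁻¹, hzU⟩, by
        rw [hKmem]
        have h6 : B⁻¹ * (B * z * B⁻¹) * B = z := by
          calc B⁻¹ * (B * z * B⁻¹) * B = (B⁻¹ * B) * z * (B⁻¹ * B) := by
                simp only [Matrix.mul_assoc]
            _ = z := by rw [hBB', Matrix.one_mul, Matrix.mul_one]
        change FixR V.T (B⁻¹ * (B * z * B⁻¹) * B)
        rw [h6]
        exact hz⟩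
      change tpow (B * z * B⁻¹) j τ = τ at h5
      conv_rhs => rw [← h5]
      rw [← tpow_mul, ← tpow_mul]
      congr 2
      calc z * B⁻¹ = (B⁻¹ * B) * z * B⁻¹ := by rw [hBB', Matrix.one_mul]
        _ = _ := by simp only [Matrix.mul_assoc]
    have h2 : tpow x j (tpow B⁻¹ j τ) = tpow B⁻¹ j τ := by
      rw [TSys.cplx_S, hT''] at h1
      refine Submodule.span_induction (p := fun v _ => tpow x j v = v) ?_ (map_zero _)
        (fun a b _ _ ha hb => by rw [map_add, ha, hb]) (fun c a _ ha => by rw [map_smul, ha]) h1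
      rintro _ ⟨s, hs, rfl⟩
      exact hx j s (h j (by omega) hs)
    rw [hγ, tpow_mul, tpow_mul, h2, ← tpow_mul, hBB, tpow_one]
  · intro u
    have hu : FixR V.T (B⁻¹ * mt K u * B) := u.2
    have e1 : B * (B⁻¹ * mt K u * B) * B⁻¹ = mt K u := by
      calc B * (B⁻¹ * mt K u * B) * B⁻¹ = (B * B⁻¹) * mt K u * (B * B⁻¹) := by
            simp only [Matrix.mul_assoc]
        _ = _ := by rw [hBB, Matrix.one_mul, Matrix.mul_one]
    have h1 := trace_im V hOmT hB hu (by rw [e1]; exact u.1.2)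
    rwa [e1] at h1
  · intro u
    obtain ⟨h1, e1, h5, -⟩ := hcos u
    have h6 := trace_im V hOmC hB h1 (by rw [e1]; exact h5)
    rwa [e1] at h6
  · intro u
    obtain ⟨h1, e1, h5, h6⟩ := hcos u
    refine hPs _ (neg_card_le_trace h5) (trace_bad h5 fun hpd => h6 ?_)
    exact good V (fun m hm => h m (by omega)) key hB h1 (by rw [e1]; exact h5)
      (by rw [e1]; exact hpd)

end Pool.Agent.Q60.PB
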