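import Pool.Agent.Q60.ED.ThmC
import Pool.Agent.Q60.TD.Gen
import Mathlib.Analysis.Matrix.PosDef
import Mathlib.Analysis.SpecialFunctions.Pow.Real

/-!
# The polar decomposition of the elements of a stabiliser

The tensors fixed by the unitary elements of a stabiliser which is stable under the adjoint are fixed
by all elements of the stabiliser.
-/

set_option linter.unusedSectionVars false

namespace Pool.Agent.Q60.PB

open Matrix Pool.Agent.Q60.ED Pool.Agent.Q60.TD

open scoped ComplexOrder

variable {ι : Type} [Fintype ι] [DecidableEq ι]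

lemma spec {A : Matrix ι ι ℂ} (hA : A.IsHermitian) : ∃ U ∈ Matrix.unitaryGroup ι ℂ,
    A = U * diagonal (fun i => (hA.eigenvalues i : ℂ)) * star U := by
  refine ⟨hA.eigenvectorUnitary, hA.eigenvectorUnitary.2, ?_⟩
  have h1 := hA.spectral_theorem
  rw [Unitary.conjStarAlgAut_apply] at h1
  exact h1

section diag

variable {S0 : Matrix ι ι ℂ} (h0 : S0.det ≠ 0)

/-- The matrix which is diagonal in the basis given by `S0`. -/
noncomputable def dm (S0 : Matrix ι ι ℂ) (d : ι → ℂ) : Matrix ι ι ℂ := S0 * diagonal d * S0⁻¹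

include h0

lemma dm_mul (d e : ι → ℂ) : dm S0 d * dm S0 e = dm S0 fun i => d i * e i := by
  have h1 : S0⁻¹ * S0 = 1 := Matrix.nonsing_inv_mul _ (isUnit_iff_ne_zero.2 h0)
  calc dm S0 d * dm S0 e = S0 * diagonal d * (S0⁻¹ * S0) * diagonal e * S0⁻¹ := by
        simp only [dm, Matrix.mul_assoc]
    _ = _ := by
        rw [h1, Matrix.mul_one, Matrix.mul_assoc S0, Matrix.diagonal_mul_diagonal, dm]

lemma dm_one : dm S0 (fun _ => 1) = 1 := by
  rw [dm]
  have h1 : (diagonal (fun _ => (1 : ℂ)) : Matrix ι ι ℂ) = 1 := Matrix.diagonal_one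
  rw [h1, Matrix.mul_one, Matrix.mul_nonsing_inv _ (isUnit_iff_ne_zero.2 h0)]

/-- The tensors fixed by a diagonal matrix. -/
lemma dm_fix_iff {d : ι → ℂ} {n : ℕ} {t : (Fin n → ι) → ℂ} : tpow (dm S0 d) n t = t ↔
    ∀ w, tpow S0⁻¹ n t w ≠ 0 → ∏ k, d (w k) = 1 := by
  have h1 : S0⁻¹ * S0 = 1 := Matrix.nonsing_inv_mul _ (isUnit_iff_ne_zero.2 h0)
  have h2 : S0 * S0⁻¹ = 1 := Matrix.mul_nonsing_inv _ (isUnit_iff_ne_zero.2 h0)
  have h3 : tpow (dm S0 d) n t = t ↔
      tpow (diagonal d) n (tpow S0⁻¹ n t) = tpow S0⁻¹ n t := by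
    constructor
    · intro h
      have h4 := congrArg (tpow S0⁻¹ n) h
      rw [dm, tpow_mul, tpow_mul, ← tpow_mul, h1, tpow_one] at h4
      exact h4
    · intro h
      rw [dm, tpow_mul, tpow_mul, h, ← tpow_mul, h2, tpow_one]
  rw [h3, tpow_diag]
  constructor
  · intro h w hw
    have h4 := congrFun h w
    exact mul_right_cancel₀ hw (h4.trans (one_mul _).symm)
  · intro h
    funext w
    by_cases hw : tpow S0⁻¹ n t w = 0
    · rw [hw, mul_zero]
    · rw [h w hw, one_mul]

lemma dm_fix {d e : ι → ℂ} {n : ℕ} (hde : ∀ w : Fin n → ι, ∏ k, d (w k) = 1 → ∏ k, e (w k) = 1)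
    {t : (Fin n → ι) → ℂ} (ht : tpow (dm S0 d) n t = t) : tpow (dm S0 e) n t = t := by
  rw [dm_fix_iff h0] at ht ⊢
  exact fun w hw => hde w (ht w hw)

end diag

/-- The matrix fixes the complexifications of the rational tensors. -/
def FixR (S : ∀ n : ℕ, Submodule ℚ ((Fin n → ι) → ℚ)) (g : Matrix ι ι ℂ) : Prop :=
  ∀ n, ∀ t ∈ S n, tpow g n (cx t) = cx t

variable {S : ∀ n : ℕ, Submodule ℚ ((Fin n → ι) → ℚ)}

lemma FixR.mul {g h : Matrix ι ι ℂ} (hg : FixR S g) (hh : FixR S h) : FixR S (g * h) := by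
  intro n t ht
  rw [tpow_mul, hh n t ht, hg n t ht]

lemma FixR.inv {g : Matrix ι ι ℂ} (hg : FixR S g) (hd : g.det ≠ 0) : FixR S g⁻¹ := by
  intro n t ht
  conv_lhs => rw [← hg n t ht]
  rw [← tpow_mul, Matrix.nonsing_inv_mul _ (isUnit_iff_ne_zero.2 hd), tpow_one]

/-- The adjoint for the hermitian form given by `Bᴴ * B`. -/
noncomputable def adj (B g : Matrix ι ι ℂ) : Matrix ι ι ℂ := B⁻¹ * (B * g * B⁻¹)ᴴ * B

/-- **The polar decomposition.** -/
theorem polar {B : Matrix ι ι ℂ} (hB : B.det ≠ 0) {g : Matrix ι ι ℂ} (hg : FixR S g)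
    (hgd : g.det ≠ 0) (hadj : FixR S (adj B g)) {n : ℕ} {t : (Fin n → ι) → ℂ}
    (ht : ∀ x, FixR S x → B * x * B⁻¹ ∈ Matrix.unitaryGroup ι ℂ → tpow x n t = t) :
    tpow g n t = t := by
  have hBu := isUnit_iff_ne_zero.2 hB
  have hBB : B * B⁻¹ = 1 := Matrix.mul_nonsing_inv _ hBu
  have hBB' : B⁻¹ * B = 1 := Matrix.nonsing_inv_mul _ hBu
  set a := B * g * B⁻¹ with ha
  have had : a.det ≠ 0 := by
    rw [ha, Matrix.det_mul, Matrix.det_mul, Matrix.det_nonsing_inv, Ring.inverse_eq_inv']
    exact mul_ne_zero (mul_ne_zero hB hgd) (inv_ne_zero hB)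
  have hpd : (aᴴ * a).PosDef := by
    refine Matrix.PosDef.conjTranspose_mul_self a ?_
    exact Matrix.mulVec_injective_of_isUnit ((Matrix.isUnit_iff_isUnit_det a).2
      (isUnit_iff_ne_zero.2 had))
  obtain ⟨U, hU, hspec⟩ := spec hpd.1
  set d : ι → ℝ := hpd.1.eigenvalues with hd
  have hd0 : ∀ i, 0 < d i := fun i => hpd.eigenvalues_pos i
  have hUU : star U * U = 1 := Matrix.mem_unitaryGroup_iff'.1 hU
  have hUU' : U * star U = 1 := Matrix.mem_unitaryGroup_iff.1 hU
  set S0 := B⁻¹ * U with hS0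
  have hS0i : S0⁻¹ = star U * B := by
    apply Matrix.inv_eq_left_inv
    calc star U * B * (B⁻¹ * U) = star U * (B * B⁻¹) * U := by simp only [Matrix.mul_assoc]
      _ = 1 := by rw [hBB, Matrix.mul_one, hUU]
  have hS0d : S0.det ≠ 0 := by
    intro h
    have h1 : (star U * B * S0).det = 1 := by
      rw [hS0, Matrix.mul_assoc, ← Matrix.mul_assoc B, hBB, Matrix.one_mul, hUU, Matrix.det_one]
    rw [Matrix.det_mul, h, mul_zero] at h1
    exact zero_ne_one h1
  have hconj : ∀ e : ι → ℂ, B * dm S0 e * B⁻¹ = U * diagonal e * star U := by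
    intro e
    rw [dm, hS0i, hS0]
    calc B * (B⁻¹ * U * diagonal e * (star U * B)) * B⁻¹
        = (B * B⁻¹) * U * diagonal e * star U * (B * B⁻¹) := by simp only [Matrix.mul_assoc]
      _ = _ := by rw [hBB, Matrix.one_mul, Matrix.mul_one]
  have hdm : dm S0 (fun i => (d i : ℂ)) = adj B g * g := by
    have h1 : B * dm S0 (fun i => (d i : ℂ)) * B⁻¹ = aᴴ * a := by
      rw [hconj]
      exact hspec.symm
    have h2 : dm S0 (fun i => (d i : ℂ)) = B⁻¹ * (B * dm S0 (fun i => (d i : ℂ)) * B⁻¹) * B := by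
      calc dm S0 (fun i => (d i : ℂ)) = (B⁻¹ * B) * dm S0 (fun i => (d i : ℂ)) * (B⁻¹ * B) := by
            rw [hBB', Matrix.one_mul, Matrix.mul_one]
        _ = _ := by simp only [Matrix.mul_assoc]
    rw [h2, h1, adj]
    calc B⁻¹ * (aᴴ * (B * g * B⁻¹)) * B = B⁻¹ * aᴴ * B * g * (B⁻¹ * B) := by
          simp only [Matrix.mul_assoc]
      _ = _ := by rw [hBB', Matrix.mul_one]
  have hfd : FixR S (dm S0 fun i => (d i : ℂ)) := by
    rw [hdm]
    exact hadj.mul hg
  have hfix : ∀ e : ι → ℂ, (∀ (n : ℕ) (w : Fin n → ι), ∏ k, (d (w k) : ℂ) = 1 →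
      ∏ k, e (w k) = 1) → FixR S (dm S0 e) := fun e he n t ht =>
    dm_fix hS0d (he n) (hfd n t ht)
  -- square roots
  have hprod : ∀ {n : ℕ} {w : Fin n → ι}, ∏ k, (d (w k) : ℂ) = 1 →
      ∑ k, Real.log (d (w k)) = 0 := by
    intro n w h
    have h1 : ∏ k, d (w k) = 1 := by exact_mod_cast h
    rw [← Real.log_prod fun k _ => (hd0 (w k)).ne', h1, Real.log_one]
  let r1 : ι → ℂ := fun i => ((Real.exp (Real.log (d i) / 2) : ℝ) : ℂ)
  let r2 : ι → ℂ := fun i => ((Real.exp (-(Real.log (d i) / 2)) : ℝ) : ℂ)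
  have hr12 : ∀ i, r2 i * r1 i = 1 := by
    intro i
    change ((Real.exp (-(Real.log (d i) / 2)) : ℝ) : ℂ) * ((Real.exp (Real.log (d i) / 2) : ℝ) : ℂ)
      = 1
    rw [← Complex.ofReal_mul, ← Real.exp_add]
    simp
  have hr2 : FixR S (dm S0 r2) := by
    refine hfix r2 fun n w h => ?_
    have h1 := hprod h
    change ∏ k, ((Real.exp (-(Real.log (d (w k)) / 2)) : ℝ) : ℂ) = 1
    rw [← Complex.ofReal_prod, ← Real.exp_sum, Finset.sum_neg_distrib, ← Finset.sum_div, h1]
    simp
  set x := g * dm S0 r2 with hx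
  have hxF : FixR S x := hg.mul hr2
  have hxg : x * dm S0 r1 = g := by
    rw [hx, Matrix.mul_assoc, dm_mul hS0d]
    have h1 : (fun i => r2 i * r1 i) = fun _ => 1 := funext hr12
    rw [h1, dm_one hS0d, Matrix.mul_one]
  have hxU : B * x * B⁻¹ ∈ Matrix.unitaryGroup ι ℂ := by
    have h1 : B * x * B⁻¹ = a * (U * diagonal r2 * star U) := by
      rw [← hconj, hx, ha]
      calc B * (g * dm S0 r2) * B⁻¹ = B * g * (B⁻¹ * B) * dm S0 r2 * B⁻¹ := by
            rw [hBB', Matrix.mul_one]
            simp only [Matrix.mul_assoc]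
        _ = _ := by simp only [Matrix.mul_assoc]
    rw [Matrix.mem_unitaryGroup_iff', h1, Matrix.star_eq_conjTranspose,
      Matrix.conjTranspose_mul, Matrix.conjTranspose_mul, Matrix.conjTranspose_mul,
      Matrix.diagonal_conjTranspose, ← Matrix.star_eq_conjTranspose (star U), star_star,
      ← Matrix.star_eq_conjTranspose U]
    have h2 : star r2 = r2 := by
      funext i
      exact Complex.conj_ofReal _
    rw [h2]
    calc U * (diagonal r2 * star U) * aᴴ * (a * (U * diagonal r2 * star U))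
        = U * diagonal r2 * (star U * (aᴴ * a) * U) * diagonal r2 * star U := by
          simp only [Matrix.mul_assoc]
      _ = U * diagonal r2 * diagonal (fun i => (d i : ℂ)) * diagonal r2 * star U := by
          congr 3
          rw [hspec]
          calc star U * (U * diagonal (fun i => (d i : ℂ)) * star U) * U
              = (star U * U) * diagonal (fun i => (d i : ℂ)) * (star U * U) := by
                simp only [Matrix.mul_assoc]
            _ = _ := by rw [hUU, Matrix.one_mul, Matrix.mul_one]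
      _ = 1 := by
          rw [Matrix.mul_assoc U, Matrix.diagonal_mul_diagonal, Matrix.mul_assoc U,
            Matrix.diagonal_mul_diagonal]
          have h3 : (fun i => r2 i * (d i : ℂ) * r2 i) = fun _ => 1 := by
            funext i
            have h4 : (d i : ℂ) = r1 i * r1 i := by
              change (d i : ℂ) = ((Real.exp (Real.log (d i) / 2) : ℝ) : ℂ) *
                ((Real.exp (Real.log (d i) / 2) : ℝ) : ℂ)
              rw [← Complex.ofReal_mul, ← Real.exp_add, add_halves, Real.exp_log (hd0 i)]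
            rw [h4]
            have h5 := hr12 i
            calc r2 i * (r1 i * r1 i) * r2 i = (r2 i * r1 i) * (r2 i * r1 i) := by ring
              _ = 1 := by rw [h5, mul_one]
          rw [h3]
          have h5 : (diagonal (fun _ => (1 : ℂ)) : Matrix ι ι ℂ) = 1 := Matrix.diagonal_one
          rw [h5, Matrix.mul_one, hUU']
  -- the one-parameter group
  have hr1 : tpow (dm S0 r1) n t = t := by
    rw [dm_fix_iff hS0d]
    intro w hw
    have h1 : ∀ s : ℝ, ∏ k, Complex.exp (s * Real.log (d (w k)) * Complex.I) = 1 := by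
      intro s
      let e : ι → ℂ := fun i => Complex.exp (s * Real.log (d i) * Complex.I)
      have he : FixR S (dm S0 e) := by
        refine hfix e fun n w h => ?_
        have h1 := hprod h
        change ∏ k, Complex.exp (s * Real.log (d (w k)) * Complex.I) = 1
        rw [← Complex.exp_sum, ← Finset.sum_mul, ← Finset.mul_sum, ← Complex.ofReal_sum, h1]
        simp
      have heU : B * dm S0 e * B⁻¹ ∈ Matrix.unitaryGroup ι ℂ := by
        rw [hconj, Matrix.mem_unitaryGroup_iff', Matrix.star_eq_conjTranspose,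
          Matrix.conjTranspose_mul, Matrix.conjTranspose_mul, Matrix.diagonal_conjTranspose,
          ← Matrix.star_eq_conjTranspose (star U), star_star, ← Matrix.star_eq_conjTranspose U]
        calc U * (diagonal (star e) * star U) * (U * diagonal e * star U)
            = U * diagonal (star e) * (star U * U) * diagonal e * star U := by
              simp only [Matrix.mul_assoc]
          _ = 1 := by
              rw [hUU, Matrix.mul_one, Matrix.mul_assoc U, Matrix.diagonal_mul_diagonal]
              have h3 : (fun i => star e i * e i) = fun _ => 1 := by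
                funext i
                change (starRingEnd ℂ) (Complex.exp (s * Real.log (d i) * Complex.I)) *
                  Complex.exp (s * Real.log (d i) * Complex.I) = 1
                rw [← Complex.exp_conj, ← Complex.exp_add]
                simp
              rw [h3]
              have h5 : (diagonal (fun _ => (1 : ℂ)) : Matrix ι ι ℂ) = 1 := Matrix.diagonal_one
              rw [h5, Matrix.mul_one, hUU']
      exact (dm_fix_iff hS0d).1 (ht _ he heU) w hw
    have h2 : ∑ k, Real.log (d (w k)) = 0 := by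
      by_contra hne
      have h3 := h1 (Real.pi / ∑ k, Real.log (d (w k)))
      rw [← Complex.exp_sum, ← Finset.sum_mul, ← Finset.mul_sum, ← Complex.ofReal_sum,
        ← Complex.ofReal_mul, div_mul_cancel₀ _ hne, Complex.exp_pi_mul_I] at h3
      norm_num at h3
    change ∏ k, ((Real.exp (Real.log (d (w k)) / 2) : ℝ) : ℂ) = 1
    rw [← Complex.ofReal_prod, ← Real.exp_sum, ← Finset.sum_div, h2]
    simp
  rw [← hxg, tpow_mul, hr1]
  exact ht x hxF hxU

end Pool.Agent.Q60.PB
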