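import Mathlib.MeasureTheory.Function.L2Space
import Mathlib.MeasureTheory.Measure.Haar.Unique
import Mathlib.Analysis.InnerProductSpace.PiL2

/-!
# The value of a function in a translation invariant space at the unit

Let `E` be a translation invariant space of continuous functions of finite dimension `N` on a
compact group. Then `|f 1| ^ 2 ≤ N ∫ |f| ^ 2` for every `f` in `E`.
-/

set_option linter.unusedSectionVars false

open MeasureTheory ContinuousMap Module

namespace Pool.Agent.Q60.PB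

variable {K : Type} [Group K] [TopologicalSpace K] [IsTopologicalGroup K] [CompactSpace K]
  [MeasurableSpace K] [BorelSpace K] (μ : Measure K) [μ.IsHaarMeasure] [IsProbabilityMeasure μ]

/-- The left translate of a function. -/
noncomputable def ltr (g : K) (f : C(K, ℂ)) : C(K, ℂ) := f.comp ⟨fun x => g * x, by fun_prop⟩

omit [CompactSpace K] [MeasurableSpace K] [BorelSpace K] in
lemma ltr_apply (g : K) (f : C(K, ℂ)) (x : K) : ltr g f x = f (g * x) := rfl

lemma norm_sq_toLp (f : C(K, ℂ)) :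
    ‖ContinuousMap.toLp (E := ℂ) 2 μ ℂ f‖ ^ 2 = ∫ x, ‖f x‖ ^ 2 ∂μ := by
  have h1 := ContinuousMap.inner_toLp (𝕜 := ℂ) μ f f
  rw [inner_self_eq_norm_sq_to_K] at h1
  have h2 : ∀ x, f x * (starRingEnd ℂ) (f x) = ((‖f x‖ ^ 2 : ℝ) : ℂ) := by
    intro x
    rw [Complex.mul_conj, Complex.normSq_eq_norm_sq]
  simp only [h2] at h1
  rw [integral_complex_ofReal] at h1
  apply Complex.ofReal_injective
  rw [← h1]
  norm_cast

/-- **The value at the unit of a function in a translation invariant space.** -/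
theorem norm_sq_one_le (E : Submodule ℂ C(K, ℂ)) [FiniteDimensional ℂ E]
    (hE : ∀ g : K, ∀ f ∈ E, ltr g f ∈ E) {f : C(K, ℂ)} (hf : f ∈ E) :
    ‖f 1‖ ^ 2 ≤ finrank ℂ E * ∫ x, ‖f x‖ ^ 2 ∂μ := by
  classical
  set T := (ContinuousMap.toLp (E := ℂ) 2 μ ℂ) with hT
  have hinj : Function.Injective T := ContinuousMap.toLp_injective μ
  have hnorm : ∀ f : C(K, ℂ), ‖T f‖ ^ 2 = ∫ x, ‖f x‖ ^ 2 ∂μ := norm_sq_toLp μ
  set E' : Submodule ℂ (Lp ℂ 2 μ) := E.map (T : C(K, ℂ) →ₗ[ℂ] Lp ℂ 2 μ) with hE'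
  have : FiniteDimensional ℂ E' := inferInstance
  set b := stdOrthonormalBasis ℂ E' with hb
  have hdim : finrank ℂ E' = finrank ℂ E :=
    LinearEquiv.finrank_eq (Submodule.equivMapOfInjective (T : C(K, ℂ) →ₗ[ℂ] Lp ℂ 2 μ) hinj E).symm
  have hex : ∀ i, ∃ e ∈ E, T e = (b i : Lp ℂ 2 μ) := fun i => (b i).2
  choose e heE he using hex
  have hrep : ∀ f ∈ E, f = ∑ i, inner ℂ (b i : Lp ℂ 2 μ) (T f) • e i := by
    intro f hf
    apply hinj
    have h1 := b.sum_repr ⟨T f, f, hf, rfl⟩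
    have h2 := congrArg (Subtype.val) h1
    rw [map_sum]
    simp only [map_smul, he]
    refine h2.symm.trans ?_
    simp only [AddSubmonoidClass.coe_finsetSum, SetLike.val_smul]
    refine Finset.sum_congr rfl fun i _ => ?_
    rw [OrthonormalBasis.repr_apply_apply]
    rfl
  have hpars : ∀ f ∈ E, ∑ i, ‖inner ℂ (b i : Lp ℂ 2 μ) (T f)‖ ^ 2 = ‖T f‖ ^ 2 := by
    intro f hf
    have h1 := b.sum_sq_norm_inner_right ⟨T f, f, hf, rfl⟩
    exact h1
  have hcs : ∀ f ∈ E, ∀ x, ‖f x‖ ^ 2 ≤ ‖T f‖ ^ 2 * ∑ i, ‖e i x‖ ^ 2 := by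
    intro f hf x
    have h1 : f x = ∑ i, inner ℂ (b i : Lp ℂ 2 μ) (T f) * e i x := by
      conv_lhs => rw [hrep f hf]
      rw [ContinuousMap.coe_sum, Finset.sum_apply]
      rfl
    rw [h1, ← hpars f hf]
    calc ‖∑ i, inner ℂ (b i : Lp ℂ 2 μ) (T f) * e i x‖ ^ 2
        ≤ (∑ i, ‖inner ℂ (b i : Lp ℂ 2 μ) (T f)‖ * ‖e i x‖) ^ 2 := by
          refine pow_le_pow_left₀ (norm_nonneg _) ((norm_sum_le _ _).trans ?_) 2
          exact le_of_eq (Finset.sum_congr rfl fun i _ => norm_mul _ _)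
      _ ≤ _ := Finset.sum_mul_sq_le_sq_mul_sq _ _ _
  set S : K → ℝ := fun x => ∑ i, ‖e i x‖ ^ 2 with hS
  have hTb : ∀ i, ‖T (e i)‖ ^ 2 = 1 := by
    intro i
    rw [he i]
    have h1 : ‖(b i : Lp ℂ 2 μ)‖ = 1 := b.norm_eq_one i
    rw [h1, one_pow]
  -- the kernel function
  set k : C(K, ℂ) := ∑ i, (starRingEnd ℂ) (e i 1) • e i with hk
  have hkE : k ∈ E := Submodule.sum_mem _ fun i _ => Submodule.smul_mem _ _ (heE i)
  have hk1 : k 1 = ((S 1 : ℝ) : ℂ) := by
    rw [hk, ContinuousMap.coe_sum, Finset.sum_apply, hS]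
    push_cast
    refine Finset.sum_congr rfl fun i _ => ?_
    change (starRingEnd ℂ) (e i 1) * e i 1 = _
    rw [mul_comm, Complex.mul_conj, Complex.normSq_eq_norm_sq]
    push_cast
    rfl
  have hkn : ‖T k‖ ^ 2 = S 1 := by
    rw [← hpars k hkE, hS]
    refine Finset.sum_congr rfl fun i _ => ?_
    have h1 : inner ℂ (b i : Lp ℂ 2 μ) (T k) = (starRingEnd ℂ) (e i 1) := by
      rw [hk, map_sum, inner_sum, Finset.sum_eq_single i]
      · rw [map_smul, he i, inner_smul_right]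
        have h2 : inner ℂ (b i : Lp ℂ 2 μ) (b i : Lp ℂ 2 μ) = (1 : ℂ) := by
          rw [inner_self_eq_norm_sq_to_K]
          have h3 : ‖(b i : Lp ℂ 2 μ)‖ = 1 := b.norm_eq_one i
          rw [h3]
          norm_num
        rw [h2, mul_one]
      · intro j _ hj
        rw [map_smul, he j, inner_smul_right]
        have h2 : inner ℂ (b i : Lp ℂ 2 μ) (b j : Lp ℂ 2 μ) = (0 : ℂ) := by
          exact b.inner_eq_zero (Ne.symm hj)
        rw [h2, mul_zero]
      · intro h
        exact absurd (Finset.mem_univ _) h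
    rw [h1, RCLike.norm_conj]
  have hS0 : ∀ x, 0 ≤ S x := fun x => Finset.sum_nonneg fun i _ => sq_nonneg _
  have hSle : ∀ x, S 1 ≤ S x := by
    intro x
    have h1 := hcs (ltr x⁻¹ k) (hE _ _ hkE) x
    rw [ltr_apply, inv_mul_cancel, hk1] at h1
    have h2 : ‖T (ltr x⁻¹ k)‖ ^ 2 = S 1 := by
      rw [← hkn, hnorm, hnorm]
      exact integral_mul_left_eq_self (μ := μ) (fun y => ‖k y‖ ^ 2) x⁻¹
    rw [h2] at h1
    have h3 : ‖((S 1 : ℝ) : ℂ)‖ = S 1 := by
      rw [Complex.norm_real, Real.norm_of_nonneg (hS0 1)]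
    rw [h3] at h1
    change (S 1) ^ 2 ≤ S 1 * S x at h1
    rcases (hS0 1).eq_or_lt with h4 | h4
    · rw [← h4]
      exact hS0 x
    · nlinarith
  have hSint : S 1 ≤ finrank ℂ E := by
    have h1 : ∫ x, S x ∂μ = finrank ℂ E := by
      rw [hS, integral_finsetSum]
      · rw [← hdim]
        have h2 : ∀ i, ∫ x, ‖e i x‖ ^ 2 ∂μ = 1 := fun i => by rw [← hnorm, hTb]
        simp only [h2]
        simp
      · intro i _
        exact (Continuous.integrable_of_hasCompactSupport (by fun_prop)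
          (HasCompactSupport.of_compactSpace _))
    rw [← h1]
    have h2 : S 1 = ∫ _x : K, S 1 ∂μ := by simp
    rw [h2]
    refine integral_mono (integrable_const _) ?_ hSle
    exact (Continuous.integrable_of_hasCompactSupport (by fun_prop)
          (HasCompactSupport.of_compactSpace _))
  refine (hcs f hf 1).trans ?_
  rw [hnorm, mul_comm]
  exact mul_le_mul_of_nonneg_right hSint (integral_nonneg fun x => sq_nonneg _)

end Pool.Agent.Q60.PB
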